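import Mathlib
import Pool.Agent.H319R2.Rigid
import Pool.Agent.H319R2.Bohr

set_option autoImplicit false

/-!
Cycles of the 3x+1 map on the integers as finite sets.
-/

namespace Pool.Agent.H547R3

open Finset Pool.Agent.H319R2

/-- `Z` is a cycle of `T`. -/
def IsCycle (Z : Finset ℤ) : Prop :=
  ∃ (x : ℤ) (p : ℕ), 1 ≤ p ∧ T^[p] x = x ∧ Z = (Finset.range p).image fun i => T^[i] x

/-- the number of odd elements of `Z` -/
def odds (Z : Finset ℤ) : ℕ := (Z.filter fun x => x % 2 = 1).card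

/-- normal form: the period can be taken to be the minimal period -/
theorem IsCycle.normal {Z : Finset ℤ} (hZ : IsCycle Z) : ∃ x : ℤ, x ∈ Z ∧
    0 < Function.minimalPeriod T x ∧
    Z = (Finset.range (Function.minimalPeriod T x)).image (fun i => T^[i] x) ∧
    Z.card = Function.minimalPeriod T x ∧ odds Z = od (Function.minimalPeriod T x) x ∧
    Set.InjOn (fun i => T^[i] x) (Set.Iio (Function.minimalPeriod T x)) := by
  classical
  obtain ⟨x, p, hp, hx, rfl⟩ := hZ
  have hper : Function.IsPeriodicPt T p x := hx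
  have hpos : 0 < Function.minimalPeriod T x := hper.minimalPeriod_pos hp
  set m := Function.minimalPeriod T x with hm
  have hinj : Set.InjOn (fun i => T^[i] x) (Set.Iio m) := by
    rw [hm]; exact Function.iterate_injOn_Iio_minimalPeriod
  have hset : (Finset.range p).image (fun i => T^[i] x) = (Finset.range m).image (fun i => T^[i] x) := by
    ext y
    simp only [mem_image, mem_range]
    constructor
    · rintro ⟨i, _, rfl⟩
      exact ⟨i % m, Nat.mod_lt _ hpos, Function.iterate_mod_minimalPeriod_eq⟩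
    · rintro ⟨i, hi, rfl⟩
      have hle : m ≤ p := hper.minimalPeriod_le hp
      exact ⟨i, by omega, rfl⟩
  have hinj' : Set.InjOn (fun i => T^[i] x) (Finset.range m : Set ℕ) := by
    intro i hi j hj h
    exact hinj (by simpa using hi) (by simpa using hj) h
  refine ⟨x, ?_, hpos, hset, ?_, ?_, hinj⟩
  · rw [mem_image]
    exact ⟨0, by rw [mem_range]; omega, rfl⟩
  · rw [hset, card_image_of_injOn hinj', card_range]
  · unfold odds od
    rw [hset, filter_image, card_image_of_injOn]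
    intro i hi j hj h
    exact hinj' (by simp at hi ⊢; exact hi.1) (by simp at hj ⊢; exact hj.1) h

theorem IsCycle.closed {Z : Finset ℤ} (hZ : IsCycle Z) {y : ℤ} (hy : y ∈ Z) (j : ℕ) : T^[j] y ∈ Z := by
  classical
  obtain ⟨x, -, hpos, hset, -, -, -⟩ := hZ.normal
  rw [hset, mem_image] at hy ⊢
  obtain ⟨i, hi, rfl⟩ := hy
  refine ⟨(j + i) % Function.minimalPeriod T x, mem_range.2 (Nat.mod_lt _ hpos), ?_⟩
  rw [Function.iterate_mod_minimalPeriod_eq, Function.iterate_add_apply]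

theorem IsCycle.back {Z : Finset ℤ} (hZ : IsCycle Z) {y z : ℤ} (hy : y ∈ Z) (hz : z ∈ Z) :
    ∃ j : ℕ, T^[j] y = z := by
  classical
  obtain ⟨x, -, hpos, hset, -, -, -⟩ := hZ.normal
  rw [hset, mem_image] at hy hz
  obtain ⟨i, hi, rfl⟩ := hy
  obtain ⟨j, hj, rfl⟩ := hz
  rw [mem_range] at hi hj
  set m := Function.minimalPeriod T x with hm
  refine ⟨j + (m - i), ?_⟩
  show T^[j + (m - i)] (T^[i] x) = T^[j] x
  rw [← Function.iterate_add_apply]
  have e : j + (m - i) + i = j + m := by omega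
  rw [e, Function.iterate_add_apply, hm, Function.iterate_minimalPeriod]

theorem IsCycle.eq_of_mem {Z Z' : Finset ℤ} (hZ : IsCycle Z) (hZ' : IsCycle Z') {y : ℤ} (hy : y ∈ Z)
    (hy' : y ∈ Z') : Z = Z' := by
  ext z
  constructor
  · intro hz
    obtain ⟨j, rfl⟩ := hZ.back hy hz
    exact hZ'.closed hy' j
  · intro hz
    obtain ⟨j, rfl⟩ := hZ'.back hy' hz
    exact hZ.closed hy j

theorem IsCycle.periodic {Z : Finset ℤ} (hZ : IsCycle Z) {y : ℤ} (hy : y ∈ Z) :
    y ∈ Function.periodicPts T := by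
  classical
  obtain ⟨x, p, hp, hx, rfl⟩ := hZ
  rw [mem_image] at hy
  obtain ⟨i, -, rfl⟩ := hy
  refine ⟨p, hp, ?_⟩
  show T^[p] (T^[i] x) = T^[i] x
  rw [← Function.iterate_add_apply, Nat.add_comm, Function.iterate_add_apply, hx]

theorem IsCycle.card_pos {Z : Finset ℤ} (hZ : IsCycle Z) : 0 < Z.card := by
  obtain ⟨x, hx, _⟩ := hZ.normal
  exact Finset.card_pos.2 ⟨x, hx⟩

/-- the linear form of a cycle is bounded by the sum of the reciprocals of its elements -/
theorem IsCycle.form_le {Z : Finset ℤ} (hZ : IsCycle Z) (h0 : (0 : ℤ) ∉ Z) :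
    |(Z.card : ℝ) * Real.log 2 - odds Z * Real.log 3| ≤ 1 / 2 * ∑ x ∈ Z, 1 / |(x : ℝ)| := by
  classical
  obtain ⟨x, hxZ, hpos, hset, hcard, hodd, hinj⟩ := hZ.normal
  have hx0 : x ≠ 0 := fun h => h0 (h ▸ hxZ)
  have h := log_iter_sum hx0 (Function.minimalPeriod T x)
  rw [Function.iterate_minimalPeriod, sub_self, zero_add] at h
  rw [hcard, hodd]
  refine h.trans (le_of_eq ?_)
  congr 1
  conv_rhs => rw [hset]
  rw [sum_image]
  intro i hi j hj hij
  exact hinj (by simpa using hi) (by simpa using hj) hij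

/-- **the sum of the linear forms over all cycles** -/
theorem sum_forms (η : ℝ) (hη : beta < η) (hη1 : η < 1) : ∃ C : ℝ, 0 < C ∧ ∀ N : ℝ, 1 ≤ N →
    ∀ F : Finset (Finset ℤ), (∀ Z ∈ F, IsCycle Z ∧ ∀ x ∈ Z, N ≤ |(x : ℝ)|) →
      ∑ Z ∈ F, |(Z.card : ℝ) * Real.log 2 - odds Z * Real.log 3| ≤ C * N ^ (η - 1) := by
  classical
  obtain ⟨C, hC0, hC⟩ := recip η hη hη1
  refine ⟨C, hC0, ?_⟩
  intro N hN F hF
  have hdisj : (F : Set (Finset ℤ)).PairwiseDisjoint id := by
    intro Z hZ Z' hZ' hne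
    rw [Function.onFun, disjoint_left]
    intro y hy hy'
    exact hne ((hF Z hZ).1.eq_of_mem (hF Z' hZ').1 hy hy')
  have hrec := hC _ tame_periodic N hN (F.biUnion id) (by
    intro x hx
    rw [mem_biUnion] at hx
    obtain ⟨Z, hZ, hxZ⟩ := hx
    exact ⟨(hF Z hZ).1.periodic hxZ, (hF Z hZ).2 x hxZ⟩)
  rw [sum_biUnion hdisj] at hrec
  have hterm : ∀ Z ∈ F, |(Z.card : ℝ) * Real.log 2 - odds Z * Real.log 3| ≤ ∑ x ∈ id Z, 1 / |(x : ℝ)| := by
    intro Z hZ
    have h0 : (0 : ℤ) ∉ Z := by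
      intro h
      have := (hF Z hZ).2 0 h
      simp at this
      linarith
    have h1 := (hF Z hZ).1.form_le h0
    have h2 : 0 ≤ ∑ x ∈ Z, 1 / |(x : ℝ)| := sum_nonneg (fun _ _ => by positivity)
    simp only [id]
    linarith
  exact (sum_le_sum hterm).trans hrec

end Pool.Agent.H547R3
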