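import Mathlib
import Pool.Agent.H547R3.Cyc

set_option autoImplicit false

/-!
Cycles of the 3x+1 map with bounded oscillation.
-/

namespace Pool.Agent.H547R3

open Finset Pool.Agent.H319R2

/-- an irrational rotation visits an interval at most as often as expected: one block -/
theorem rot_block (α : ℝ) (q : ℕ) (h : ℤ) (hq : 0 < q) (hcop : IsCoprime h (q : ℤ))
    (hα : |(q : ℝ) * α - h| ≤ 1 / q) (s r : ℝ) (hr : 0 ≤ r) (F : Finset ℕ)
    (hF : ∀ i ∈ F, i < q ∧ ∃ o : ℤ, |(i : ℝ) * α - s - o| ≤ r) :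
    (F.card : ℝ) ≤ 2 * r * q + 3 := by
  classical
  have hqr : (0 : ℝ) < q := by exact_mod_cast hq
  have hF2 : ∀ i ∈ F, ∃ o : ℤ, |(i : ℝ) * α - s - o| ≤ r := fun i hi => (hF i hi).2
  choose! o ho using hF2
  set A : ℝ := s * q with hA
  set R : ℝ := r * q + 1 with hR
  set f : ℕ → ℤ := fun i => (i : ℤ) * h - q * o i with hf
  have hmem : ∀ i ∈ F, f i ∈ Finset.Icc ⌈A - R⌉ ⌊A + R⌋ := by
    intro i hi
    have h1 := ho i hi
    have hiq : (i : ℝ) < q := by exact_mod_cast (hF i hi).1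
    have hi0 : (0 : ℝ) ≤ i := Nat.cast_nonneg i
    have e : ((f i : ℤ) : ℝ) - A = q * ((i : ℝ) * α - s - o i) - i * (q * α - h) := by
      rw [hf, hA]; push_cast; ring
    have h2 : |(q : ℝ) * ((i : ℝ) * α - s - o i)| ≤ q * r := by
      rw [abs_mul, abs_of_pos hqr]
      exact mul_le_mul_of_nonneg_left h1 hqr.le
    have h3 : |(i : ℝ) * (q * α - h)| ≤ 1 := by
      rw [abs_mul, abs_of_nonneg hi0]
      calc (i : ℝ) * |(q : ℝ) * α - h| ≤ q * (1 / q) :=
            mul_le_mul hiq.le hα (abs_nonneg _) hqr.le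
        _ = 1 := by field_simp
    have h4 : |((f i : ℤ) : ℝ) - A| ≤ R := by
      rw [e, hR]
      refine (abs_sub _ _).trans ?_
      linarith
    rw [abs_le] at h4
    rw [Finset.mem_Icc]
    constructor
    · rw [Int.ceil_le]; linarith
    · rw [Int.le_floor]; linarith
  have hinj : Set.InjOn f F := by
    intro i hi j hj hij
    have hi' := (hF i hi).1
    have hj' := (hF j hj).1
    have h1 : (q : ℤ) ∣ ((i : ℤ) - j) * h := by
      refine ⟨o i - o j, ?_⟩
      have : (i : ℤ) * h - q * o i = (j : ℤ) * h - q * o j := hij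
      linear_combination this
    have h2 : (q : ℤ) ∣ (i : ℤ) - j := hcop.symm.dvd_of_dvd_mul_right h1
    have h3 : ((i : ℤ) - j) = 0 := by
      apply Int.eq_zero_of_abs_lt_dvd h2
      rw [abs_lt]
      constructor <;> omega
    omega
  have h1 : F.card ≤ (Finset.Icc ⌈A - R⌉ ⌊A + R⌋).card :=
    Finset.card_le_card_of_injOn f hmem hinj
  rw [Int.card_Icc] at h1
  have h2 : ((⌊A + R⌋ + 1 - ⌈A - R⌉).toNat : ℝ) ≤ max (((⌊A + R⌋ + 1 - ⌈A - R⌉ : ℤ)) : ℝ) 0 := by
    rcases le_total 0 (⌊A + R⌋ + 1 - ⌈A - R⌉) with h | h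
    · have : (((⌊A + R⌋ + 1 - ⌈A - R⌉).toNat : ℤ)) = ⌊A + R⌋ + 1 - ⌈A - R⌉ := Int.toNat_of_nonneg h
      refine le_trans (le_of_eq ?_) (le_max_left _ _)
      exact_mod_cast this
    · rw [Int.toNat_of_nonpos h]; simp
  have h3 : (F.card : ℝ) ≤ ((⌊A + R⌋ + 1 - ⌈A - R⌉).toNat : ℝ) := by exact_mod_cast h1
  refine (h3.trans h2).trans (max_le ?_ (by positivity))
  push_cast
  have h4 := Int.floor_le (A + R)
  have h5 := Int.le_ceil (A - R)
  rw [hR] at h4 h5 ⊢
  linarith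

/-- an irrational rotation visits an interval at most as often as expected -/
theorem rot_count (α : ℝ) (q : ℕ) (h : ℤ) (hq : 0 < q) (hcop : IsCoprime h (q : ℤ))
    (hα : |(q : ℝ) * α - h| ≤ 1 / q) (s r : ℝ) (hr : 0 ≤ r) (k : ℕ) (F : Finset ℕ)
    (hF : ∀ i ∈ F, i < k ∧ ∃ o : ℤ, |(i : ℝ) * α - s - o| ≤ r) :
    (F.card : ℝ) ≤ ((k : ℝ) / q + 1) * (2 * r * q + 3) := by
  classical
  have hqr : (0 : ℝ) < q := by exact_mod_cast hq
  have hmaps : ∀ i ∈ F, i / q ∈ range (k / q + 1) := by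
    intro i hi
    rw [mem_range]
    exact Nat.lt_succ_of_le (Nat.div_le_div_right (hF i hi).1.le)
  have h1 := card_eq_sum_card_fiberwise hmaps
  have h2 : ∀ b ∈ range (k / q + 1), ((F.filter fun i => i / q = b).card : ℝ) ≤ 2 * r * q + 3 := by
    intro b _
    have hinj : Set.InjOn (fun i => i % q) ((F.filter fun i => i / q = b) : Finset ℕ) := by
      intro i hi j hj hij
      simp only [coe_filter, Set.mem_ofPred_eq] at hi hj
      have e1 := Nat.div_add_mod i q
      have e2 := Nat.div_add_mod j q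
      have e3 : i % q = j % q := hij
      rw [hi.2] at e1
      rw [hj.2] at e2
      omega
    rw [← card_image_of_injOn hinj]
    apply rot_block α q h hq hcop hα (s - b * q * α) r hr
    intro i hi
    rw [mem_image] at hi
    obtain ⟨j, hj, rfl⟩ := hi
    rw [mem_filter] at hj
    refine ⟨Nat.mod_lt _ hq, ?_⟩
    obtain ⟨o, ho⟩ := (hF j hj.1).2
    refine ⟨o, ?_⟩
    have e1 := Nat.div_add_mod j q
    rw [hj.2] at e1
    have e2 : (j : ℝ) = q * b + ((j % q : ℕ) : ℝ) := by exact_mod_cast e1.symm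
    have e : ((j % q : ℕ) : ℝ) * α - (s - b * q * α) - o = (j : ℝ) * α - s - o := by
      rw [e2]; ring
    rw [e]
    exact ho
  have h3 : (F.card : ℝ) ≤ ∑ b ∈ range (k / q + 1), (2 * r * q + 3) := by
    rw [h1]
    push_cast
    exact sum_le_sum h2
  rw [sum_const, card_range, nsmul_eq_mul] at h3
  refine h3.trans (mul_le_mul_of_nonneg_right ?_ (by positivity))
  push_cast
  have : ((k / q : ℕ) : ℝ) ≤ (k : ℝ) / q := Nat.cast_div_le
  linarith

/-- good rational approximations to `log 2 / log 3` with large denominators -/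
theorem exists_approx (Q : ℝ) : ∃ (q : ℕ) (h : ℤ), 0 < q ∧ Q ≤ q ∧ IsCoprime h (q : ℤ) ∧
    |(q : ℝ) * (Real.log 2 / Real.log 3) - h| ≤ 1 / q := by
  obtain ⟨c, hc, hm⟩ := Pool.Agent.H319R2.measure
  have hl2 : 0 < Real.log 2 := Real.log_pos (by norm_num)
  have hl3 : 0 < Real.log 3 := Real.log_pos (by norm_num)
  set α : ℝ := Real.log 2 / Real.log 3 with hα
  have hα0 : 0 < α := by positivity
  have hα1 : α < 1 := by
    rw [hα, div_lt_one hl3]; exact Real.log_lt_log (by norm_num) (by norm_num)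
  have hl34 : Real.log 3 < 2 := by
    have h : Real.log 3 < Real.log (2 ^ 2) := Real.log_lt_log (by norm_num) (by norm_num)
    rw [Real.log_pow] at h
    have := Real.log_two_lt_d9
    push_cast at h
    linarith
  -- choose P large
  obtain ⟨P, hP⟩ := exists_nat_gt (2 * (4 * (|Q| + 1)) ^ 13 / c + 1)
  have hP0 : (0 : ℝ) < P := by
    have : (0 : ℝ) ≤ 2 * (4 * (|Q| + 1)) ^ 13 / c := by positivity
    linarith
  have hP1 : 0 < P := by exact_mod_cast hP0
  obtain ⟨x, hx1, hx2⟩ := Real.exists_rat_abs_sub_le_and_den_le α (n := P) hP1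
  set q : ℕ := x.den with hq
  set h : ℤ := x.num with hh
  have hq0 : 0 < q := x.den_pos
  have hqr : (0 : ℝ) < q := by exact_mod_cast hq0
  have hq1 : (1 : ℝ) ≤ q := by exact_mod_cast hq0
  have hqP : (q : ℝ) ≤ P := by exact_mod_cast hx2
  have hxq : (x : ℝ) = (h : ℝ) / q := by
    rw [hh, hq]; exact Rat.cast_def x
  have happ : |(q : ℝ) * α - h| ≤ 1 / ((P : ℝ) + 1) := by
    rw [hxq] at hx1
    have e : (q : ℝ) * α - h = q * (α - h / q) := by field_simp
    rw [e, abs_mul, abs_of_pos hqr]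
    calc (q : ℝ) * |α - h / q| ≤ q * (1 / (((P : ℝ) + 1) * q)) :=
          mul_le_mul_of_nonneg_left hx1 hqr.le
      _ = 1 / ((P : ℝ) + 1) := by field_simp
  have hcop : IsCoprime h (q : ℤ) := by
    rw [Int.isCoprime_iff_gcd_eq_one]
    have := x.reduced
    rw [hh, hq]
    rw [Int.gcd_eq_natAbs]
    simpa using this
  have h1q : |(q : ℝ) * α - h| ≤ 1 / q :=
    happ.trans (one_div_le_one_div_of_le hqr (by linarith))
  refine ⟨q, h, hq0, ?_, hcop, h1q⟩
  by_contra hcon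
  push Not at hcon
  have hmq := hm (q : ℤ) (-h) (Or.inl (by exact_mod_cast hq0.ne'))
  have e2 : ((q : ℤ) : ℝ) * Real.log 2 + ((-h : ℤ) : ℝ) * Real.log 3 = Real.log 3 * (q * α - h) := by
    rw [hα]; push_cast; field_simp; ring
  rw [e2, abs_mul, abs_of_pos hl3] at hmq
  have hh4 : ((|(q : ℤ)| + |-h| : ℤ) : ℝ) ≤ 4 * q := by
    have h5 : |(h : ℝ)| ≤ 3 * q := by
      have h6 : |(h : ℝ)| ≤ |(q : ℝ) * α| + |(q : ℝ) * α - h| := by
        have e7 : (h : ℝ) = (q : ℝ) * α - ((q : ℝ) * α - h) := by ring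
        calc |(h : ℝ)| = |(q : ℝ) * α - ((q : ℝ) * α - h)| := by rw [← e7]
          _ ≤ _ := abs_sub _ _
      have h7 : |(q : ℝ) * α| ≤ q := by
        rw [abs_of_pos (by positivity)]; nlinarith
      have h8 : 1 / ((P : ℝ) + 1) ≤ 1 := by rw [div_le_one (by positivity)]; linarith
      linarith
    push_cast
    rw [abs_neg, abs_of_nonneg hqr.le]
    linarith
  have hh0 : (0 : ℝ) ≤ ((|(q : ℤ)| + |-h| : ℤ) : ℝ) := by
    have : (0 : ℤ) ≤ |(q : ℤ)| + |-h| := by positivity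
    exact_mod_cast this
  have hqQ : 4 * (q : ℝ) ≤ 4 * (|Q| + 1) := by
    have := le_abs_self Q
    linarith
  have h9 : c ≤ (4 * (|Q| + 1)) ^ 13 * (2 * (1 / P)) := by
    refine hmq.trans ?_
    apply mul_le_mul (pow_le_pow_left₀ hh0 (hh4.trans hqQ) 13) _ (by positivity) (by positivity)
    apply mul_le_mul hl34.le _ (abs_nonneg _) (by norm_num)
    exact happ.trans (one_div_le_one_div_of_le hP0 (by linarith))
  have h10 : c * P ≤ 2 * (4 * (|Q| + 1)) ^ 13 := by
    calc c * P ≤ (4 * (|Q| + 1)) ^ 13 * (2 * (1 / P)) * P :=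
          mul_le_mul_of_nonneg_right h9 hP0.le
      _ = 2 * (4 * (|Q| + 1)) ^ 13 := by field_simp
  have h11 : (P : ℝ) ≤ 2 * (4 * (|Q| + 1)) ^ 13 / c := by
    rw [le_div_iff₀ hc]; linarith
  linarith

end Pool.Agent.H547R3
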