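import Mathlib
import Pool.Agent.H547R3.Osc

set_option autoImplicit false

/-!
Lengths of cycles in short intervals, and the number of periodic points.
-/

namespace Pool.Agent.H547R3

open Finset Pool.Agent.H319R2

/-- good approximations to `log 2 / log 3` with controlled denominators -/
theorem approx_at : ∃ K : ℝ, 0 < K ∧ ∀ P : ℕ, 1 ≤ P → ∃ (q : ℕ) (h : ℤ), 0 < q ∧ q ≤ P ∧
    IsCoprime h (q : ℤ) ∧ |(q : ℝ) * (Real.log 2 / Real.log 3) - h| ≤ 1 / q ∧
    (P : ℝ) ≤ K * (q : ℝ) ^ 13 := by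
  obtain ⟨c, hc, hm⟩ := Pool.Agent.H319R2.measure
  have hl2 : 0 < Real.log 2 := Real.log_pos (by norm_num)
  have hl3 : 0 < Real.log 3 := Real.log_pos (by norm_num)
  set α : ℝ := Real.log 2 / Real.log 3 with hα
  have hα0 : 0 < α := by positivity
  have hα1 : α < 1 := by
    rw [hα, div_lt_one hl3]; exact Real.log_lt_log (by norm_num) (by norm_num)
  have hl34 : Real.log 3 < 2 := by
    have h : Real.log 3 < Real.log (2 ^ 2) := Real.log_lt_log (by norm_num) (by norm_num)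
    rw [Real.log_pow] at h
    have := Real.log_two_lt_d9
    push_cast at h
    linarith
  refine ⟨2 * 4 ^ 13 / c, by positivity, ?_⟩
  intro P hP
  have hP0 : (0 : ℝ) < P := by exact_mod_cast hP
  obtain ⟨x, hx1, hx2⟩ := Real.exists_rat_abs_sub_le_and_den_le α (n := P) hP
  set q : ℕ := x.den with hq
  set h : ℤ := x.num with hh
  have hq0 : 0 < q := x.den_pos
  have hqr : (0 : ℝ) < q := by exact_mod_cast hq0
  have hq1 : (1 : ℝ) ≤ q := by exact_mod_cast hq0
  have hqP : (q : ℝ) ≤ P := by exact_mod_cast hx2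
  have hxq : (x : ℝ) = (h : ℝ) / q := by
    rw [hh, hq]; exact Rat.cast_def x
  have happ : |(q : ℝ) * α - h| ≤ 1 / ((P : ℝ) + 1) := by
    rw [hxq] at hx1
    have e : (q : ℝ) * α - h = q * (α - h / q) := by field_simp
    rw [e, abs_mul, abs_of_pos hqr]
    calc (q : ℝ) * |α - h / q| ≤ q * (1 / (((P : ℝ) + 1) * q)) :=
          mul_le_mul_of_nonneg_left hx1 hqr.le
      _ = 1 / ((P : ℝ) + 1) := by field_simp
  have hcop : IsCoprime h (q : ℤ) := by
    rw [Int.isCoprime_iff_gcd_eq_one]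
    have := x.reduced
    rw [hh, hq]
    rw [Int.gcd_eq_natAbs]
    simpa using this
  have h1q : |(q : ℝ) * α - h| ≤ 1 / q :=
    happ.trans (one_div_le_one_div_of_le hqr (by linarith))
  refine ⟨q, h, hq0, hx2, hcop, h1q, ?_⟩
  have hmq := hm (q : ℤ) (-h) (Or.inl (by exact_mod_cast hq0.ne'))
  have e2 : ((q : ℤ) : ℝ) * Real.log 2 + ((-h : ℤ) : ℝ) * Real.log 3 = Real.log 3 * (q * α - h) := by
    rw [hα]; push_cast; field_simp; ring
  rw [e2, abs_mul, abs_of_pos hl3] at hmq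
  have hh4 : ((|(q : ℤ)| + |-h| : ℤ) : ℝ) ≤ 4 * q := by
    have h5 : |(h : ℝ)| ≤ 3 * q := by
      have h6 : |(h : ℝ)| ≤ |(q : ℝ) * α| + |(q : ℝ) * α - h| := by
        have e7 : (h : ℝ) = (q : ℝ) * α - ((q : ℝ) * α - h) := by ring
        calc |(h : ℝ)| = |(q : ℝ) * α - ((q : ℝ) * α - h)| := by rw [← e7]
          _ ≤ _ := abs_sub _ _
      have h7 : |(q : ℝ) * α| ≤ q := by
        rw [abs_of_pos (by positivity)]; nlinarith
      have h8 : 1 / ((P : ℝ) + 1) ≤ 1 := by rw [div_le_one (by positivity)]; linarith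
      linarith
    push_cast
    rw [abs_neg, abs_of_nonneg hqr.le]
    linarith
  have hh0 : (0 : ℝ) ≤ ((|(q : ℤ)| + |-h| : ℤ) : ℝ) := by
    have : (0 : ℤ) ≤ |(q : ℤ)| + |-h| := by positivity
    exact_mod_cast this
  have h9 : c ≤ (4 * (q : ℝ)) ^ 13 * (2 * (1 / P)) := by
    refine hmq.trans ?_
    apply mul_le_mul (pow_le_pow_left₀ hh0 hh4 13) _ (by positivity) (by positivity)
    apply mul_le_mul hl34.le _ (abs_nonneg _) (by norm_num)
    exact happ.trans (one_div_le_one_div_of_le hP0 (by linarith))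
  have h10 : c * P ≤ 2 * 4 ^ 13 * (q : ℝ) ^ 13 := by
    calc c * P ≤ (4 * (q : ℝ)) ^ 13 * (2 * (1 / P)) * P :=
          mul_le_mul_of_nonneg_right h9 hP0.le
      _ = 2 * 4 ^ 13 * (q : ℝ) ^ 13 := by field_simp
  rw [div_mul_eq_mul_div, le_div_iff₀ hc]
  linarith

/-- **Bohr sets in intervals.** -/
theorem bohr_interval : ∃ C : ℝ, 0 < C ∧ ∀ (a H : ℕ), 1 ≤ H → ∀ r : ℝ, 0 ≤ r → ∀ F : Finset ℕ,
    (∀ p ∈ F, a ≤ p ∧ p < a + H ∧ ∃ o : ℤ, |(p : ℝ) * Real.log 2 - o * Real.log 3| ≤ r) →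
    (F.card : ℝ) ≤ C * (r * H + (H : ℝ) ^ (12 / 13 : ℝ)) := by
  classical
  obtain ⟨K, hK0, hK⟩ := approx_at
  have hl2 : 0 < Real.log 2 := Real.log_pos (by norm_num)
  have hl3 : 0 < Real.log 3 := Real.log_pos (by norm_num)
  have hl31 := log3_gt_one
  refine ⟨3 * K ^ (1 / 13 : ℝ) + 10, by positivity, ?_⟩
  intro a H hH r hr F hF
  have hPr : (1 : ℝ) ≤ H := by exact_mod_cast hH
  obtain ⟨q, h, hq0, hqP', hcop, h1q, h10⟩ := hK H hH
  have hqr : (0 : ℝ) < q := by exact_mod_cast hq0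
  have hqP : (q : ℝ) ≤ H := by exact_mod_cast hqP'
  set G : Finset ℕ := F.image (fun p => p - a) with hG
  have hinj : Set.InjOn (fun p => p - a) (F : Set ℕ) := by
    intro x hx y hy hxy
    have h1 := (hF x hx).1
    have h2 := (hF y hy).1
    simp only at hxy
    omega
  have hcardG : G.card = F.card := card_image_of_injOn hinj
  have hcnt := rot_count (Real.log 2 / Real.log 3) q h hq0 hcop h1q
    (-(a : ℝ) * (Real.log 2 / Real.log 3)) r hr H G (by
    intro i hi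
    rw [hG, mem_image] at hi
    obtain ⟨p, hp, rfl⟩ := hi
    obtain ⟨hap, hpa, o, ho⟩ := hF p hp
    refine ⟨by omega, o, ?_⟩
    have e1 : ((p - a : ℕ) : ℝ) = (p : ℝ) - a := by rw [Nat.cast_sub hap]
    have e : ((p - a : ℕ) : ℝ) * (Real.log 2 / Real.log 3) - -(a : ℝ) * (Real.log 2 / Real.log 3) - o =
        (p * Real.log 2 - o * Real.log 3) / Real.log 3 := by
      rw [e1]; field_simp; ring
    rw [e, abs_div, abs_of_pos hl3, div_le_iff₀ hl3]
    nlinarith)
  rw [hcardG] at hcnt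
  have hPq : (H : ℝ) / q ≤ K ^ (1 / 13 : ℝ) * (H : ℝ) ^ (12 / 13 : ℝ) := by
    have h11 : (H : ℝ) ^ (1 / 13 : ℝ) ≤ K ^ (1 / 13 : ℝ) * q := by
      have h12 := Real.rpow_le_rpow (by linarith) h10 (show (0 : ℝ) ≤ 1 / 13 by norm_num)
      rw [Real.mul_rpow hK0.le (by positivity), ← Real.rpow_natCast, ← Real.rpow_mul hqr.le] at h12
      norm_num at h12 ⊢
      exact h12
    rw [div_le_iff₀ hqr]
    have e13 : (H : ℝ) = (H : ℝ) ^ (12 / 13 : ℝ) * (H : ℝ) ^ (1 / 13 : ℝ) := by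
      rw [← Real.rpow_add (by linarith)]; norm_num
    calc (H : ℝ) = (H : ℝ) ^ (12 / 13 : ℝ) * (H : ℝ) ^ (1 / 13 : ℝ) := e13
      _ ≤ (H : ℝ) ^ (12 / 13 : ℝ) * (K ^ (1 / 13 : ℝ) * q) :=
          mul_le_mul_of_nonneg_left h11 (by positivity)
      _ = _ := by ring
  have hP12 : (1 : ℝ) ≤ (H : ℝ) ^ (12 / 13 : ℝ) := Real.one_le_rpow hPr (by norm_num)
  have hexp : ((H : ℝ) / q + 1) * (2 * r * q + 3) = 2 * r * H + 2 * r * q + 3 * (H / q) + 3 := by
    field_simp; ring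
  rw [hexp] at hcnt
  have hrP : 0 ≤ r * H := by positivity
  have hrq : r * q ≤ r * H := mul_le_mul_of_nonneg_left hqP hr
  have hKp : 0 ≤ K ^ (1 / 13 : ℝ) := by positivity
  have hfin : 0 ≤ K ^ (1 / 13 : ℝ) * (r * H) := by positivity
  nlinarith

/-- **Lengths of cycles in intervals.** -/
theorem lengths_interval : ∃ C : ℝ, 0 < C ∧ ∀ (a H : ℕ), 1 ≤ H → ∀ F : Finset ℕ,
    (∀ p ∈ F, a ≤ p ∧ p < a + H ∧ ∃ Z : Finset ℤ, IsCycle Z ∧ Z.card = p) →
    (F.card : ℝ) ≤ C * (H : ℝ) ^ (12 / 13 : ℝ) := by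
  classical
  obtain ⟨C1, hC1, hsum⟩ := sum_forms 0.96 (by have := beta_lt; linarith) (by norm_num)
  obtain ⟨C2, hC2, hbohr⟩ := bohr_interval
  refine ⟨C1 + 2 * C2 + 1, by positivity, ?_⟩
  intro a H hH F hF
  have hHr : (1 : ℝ) ≤ H := by exact_mod_cast hH
  have hH0 : (0 : ℝ) < H := by linarith
  set r : ℝ := (H : ℝ) ^ (-(1 / 13) : ℝ) with hr
  have hr0 : 0 < r := by positivity
  have hrH : r * H = (H : ℝ) ^ (12 / 13 : ℝ) := by
    rw [hr]
    nth_rewrite 2 [← Real.rpow_one (H : ℝ)]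
    rw [← Real.rpow_add hH0]; norm_num
  have hP12 : (1 : ℝ) ≤ (H : ℝ) ^ (12 / 13 : ℝ) := Real.one_le_rpow hHr (by norm_num)
  have hrinv : 1 / r ≤ (H : ℝ) ^ (12 / 13 : ℝ) := by
    rw [hr, one_div, ← Real.rpow_neg hH0.le, neg_neg]
    exact Real.rpow_le_rpow_of_exponent_le hHr (by norm_num)
  set F0 : Finset ℕ := F.filter (fun p : ℕ => p ≠ 1) with hF0
  set L1 : Finset ℕ := F0.filter (fun p : ℕ => ∃ o : ℤ, |(p : ℝ) * Real.log 2 - o * Real.log 3| ≤ r) with hL1
  set L2 : Finset ℕ := F0.filter (fun p : ℕ => ¬ ∃ o : ℤ, |(p : ℝ) * Real.log 2 - o * Real.log 3| ≤ r) with hL2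
  have hsplit : L1.card + L2.card = F0.card := by
    rw [hL1, hL2]; exact card_filter_add_card_filter_not (s := F0) _
  have hF01 : F.card ≤ F0.card + 1 := by
    have h1 : F ⊆ insert 1 F0 := by
      intro x hx
      rw [mem_insert, hF0, mem_filter]
      by_cases h : x = 1
      · exact Or.inl h
      · exact Or.inr ⟨hx, h⟩
    exact (card_le_card h1).trans (card_insert_le _ _)
  have h1 : (L1.card : ℝ) ≤ C2 * (r * H + (H : ℝ) ^ (12 / 13 : ℝ)) := by
    apply hbohr a H hH r hr0.le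
    intro p hp
    rw [hL1, mem_filter, hF0, mem_filter] at hp
    obtain ⟨ha, hb, -⟩ := hF p hp.1.1
    exact ⟨ha, hb, hp.2⟩
  have h2 : (L2.card : ℝ) ≤ C1 / r := by
    have hch : ∀ p : ℕ, ∃ Z : Finset ℤ, p ∈ L2 → IsCycle Z ∧ Z.card = p := by
      intro p
      by_cases hp : p ∈ L2
      · have hp' := hp
        rw [hL2, mem_filter, hF0, mem_filter] at hp'
        obtain ⟨-, -, Z, hZ⟩ := hF p hp'.1.1
        exact ⟨Z, fun _ => hZ⟩
      · exact ⟨∅, fun h => absurd h hp⟩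
    choose f hf using hch
    have hinj : Set.InjOn f L2 := by
      intro p hp p' hp' h
      rw [← (hf p hp).2, ← (hf p' hp').2, h]
    have hno0 : ∀ p ∈ L2, (0 : ℤ) ∉ f p := by
      intro p hp h0
      obtain ⟨hc, hcard⟩ := hf p hp
      have hsub : f p ⊆ {0} := by
        intro y hy
        obtain ⟨j, hj⟩ := hc.back h0 hy
        rw [mem_singleton, ← hj]
        have : ∀ j : ℕ, T^[j] (0 : ℤ) = 0 := by
          intro j
          induction j with
          | zero => rfl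
          | succ j ih => rw [Function.iterate_succ_apply', ih]; rfl
        exact this j
      have h1 := card_le_card hsub
      rw [card_singleton, hcard] at h1
      have h2 := hc.card_pos
      rw [hcard] at h2
      rw [hL2, mem_filter, hF0, mem_filter] at hp
      have := hp.1.2
      omega
    have h3 := hsum 1 le_rfl (L2.image f) (by
      intro Z hZ
      rw [mem_image] at hZ
      obtain ⟨p, hp, rfl⟩ := hZ
      refine ⟨(hf p hp).1, fun x hx => ?_⟩
      have hx0 : x ≠ 0 := fun h => hno0 p hp (h ▸ hx)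
      have : (1 : ℤ) ≤ |x| := Int.one_le_abs hx0
      exact_mod_cast this)
    rw [sum_image hinj, Real.one_rpow, mul_one] at h3
    have h4 : ∀ p ∈ L2, r ≤ |((f p).card : ℝ) * Real.log 2 - odds (f p) * Real.log 3| := by
      intro p hp
      have h5 := hp
      rw [hL2, mem_filter] at h5
      have h6 := h5.2
      push Not at h6
      have := h6 (odds (f p) : ℤ)
      rw [(hf p hp).2]
      push_cast at this
      exact this.le
    have h7 : (L2.card : ℝ) * r ≤ C1 := by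
      calc (L2.card : ℝ) * r = ∑ p ∈ L2, r := by rw [sum_const, nsmul_eq_mul]
        _ ≤ _ := sum_le_sum h4
        _ ≤ C1 := h3
    rw [le_div_iff₀ hr0]
    exact h7
  have h3 : C1 / r ≤ C1 * (H : ℝ) ^ (12 / 13 : ℝ) := by
    rw [div_eq_mul_one_div]
    exact mul_le_mul_of_nonneg_left hrinv hC1.le
  have e : (F.card : ℝ) ≤ L1.card + L2.card + 1 := by
    have : F.card ≤ L1.card + L2.card + 1 := by omega
    exact_mod_cast this
  rw [hrH] at h1
  nlinarith

/-- **Periodic points.** -/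
theorem periodic_count (η : ℝ) (hη : beta < η) : ∃ C : ℝ, 0 < C ∧ ∀ X : ℝ, 1 ≤ X →
    (Set.ncard {x : ℤ | x ∈ Function.periodicPts T ∧ |(x : ℝ)| ≤ X} : ℝ) ≤ C * X ^ η := by
  classical
  obtain ⟨C, hC, h⟩ := sparse η hη
  refine ⟨C, hC, ?_⟩
  intro X hX
  have hfin : {x : ℤ | x ∈ Function.periodicPts T ∧ |(x : ℝ)| ≤ X}.Finite := by
    apply (Set.finite_Icc (-⌈X⌉) ⌈X⌉).subset
    intro y hy
    have h := hy.2
    rw [abs_le] at h
    have h1 := Int.le_ceil X
    constructor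
    · have : (-(⌈X⌉ : ℝ)) ≤ y := by linarith
      exact_mod_cast this
    · have : (y : ℝ) ≤ ⌈X⌉ := by linarith
      exact_mod_cast this
  rw [Set.ncard_eq_toFinset_card _ hfin]
  apply h _ tame_periodic X hX
  intro x hx
  rw [Set.Finite.mem_toFinset] at hx
  exact hx

end Pool.Agent.H547R3
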