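import Mathlib
import Pool.Agent.H547R3.Osc

set_option autoImplicit false

/-!
Cycles of the 3x+1 map with bounded oscillation are short: the coding by visits of a rotation.
-/

namespace Pool.Agent.H547R3

open Finset Pool.Agent.H319R2

/-- the times at which a branching is possible -/
noncomputable def V (δ τ : ℝ) (k m : ℕ) : Finset ℕ := by
  classical
  exact (range k).filter fun i => ∃ o : ℤ,
    |(m : ℝ) * τ - i * Real.log 2 + o * Real.log 3 - (Real.log 2 + δ / 2)| ≤ δ / 2 + 2 * τ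

theorem mem_V {δ τ : ℝ} {k m i : ℕ} : i ∈ V δ τ k m ↔ i < k ∧ ∃ o : ℤ,
    |(m : ℝ) * τ - i * Real.log 2 + o * Real.log 3 - (Real.log 2 + δ / 2)| ≤ δ / 2 + 2 * τ := by
  classical
  unfold V
  rw [mem_filter, mem_range]

theorem V_card {δ τ : ℝ} (hδ : 0 ≤ δ) (hτ : 0 < τ) {q : ℕ} {h : ℤ} (hq : 0 < q)
    (hcop : IsCoprime h (q : ℤ)) (hα : |(q : ℝ) * (Real.log 2 / Real.log 3) - h| ≤ 1 / q) (k m : ℕ) :
    ((V δ τ k m).card : ℝ) ≤ ((k : ℝ) / q + 1) * (2 * ((δ / 2 + 2 * τ) / Real.log 3) * q + 3) := by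
  have hl3 : 0 < Real.log 3 := Real.log_pos (by norm_num)
  apply rot_count (Real.log 2 / Real.log 3) q h hq hcop hα
    (((m : ℝ) * τ - (Real.log 2 + δ / 2)) / Real.log 3) _ (by positivity) k
  intro i hi
  rw [mem_V] at hi
  obtain ⟨hik, o, ho⟩ := hi
  refine ⟨hik, o, ?_⟩
  have e : (i : ℝ) * (Real.log 2 / Real.log 3) - ((m : ℝ) * τ - (Real.log 2 + δ / 2)) / Real.log 3 - o =
      -((m : ℝ) * τ - i * Real.log 2 + o * Real.log 3 - (Real.log 2 + δ / 2)) / Real.log 3 := by
    field_simp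
    ring
  rw [e, abs_div, abs_neg, abs_of_pos hl3]
  exact div_le_div_of_nonneg_right ho hl3.le

/-- the number of odd terms is determined by the parities -/
theorem od_congr {x y : ℤ} {i : ℕ} (h : ∀ j < i, (T^[j] x) % 2 = (T^[j] y) % 2) : od i x = od i y := by
  unfold od
  congr 1
  apply filter_congr
  intro j hj
  rw [mem_range] at hj
  rw [h j hj]

/-- log of an odd element whose image is bounded -/
theorem odd_upper {z : ℤ} {M τ : ℝ} (hτ : 0 < τ) (hM : 1 / (2 * M) ≤ τ) (hM0 : 0 < M) (hodd : z % 2 = 1)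
    (hz : |((T z : ℤ) : ℝ)| ≤ M) : Real.log |(z : ℝ)| ≤ Real.log M + Real.log 2 - Real.log 3 + τ := by
  have h1 := T_odd hodd
  have h2 : (2 : ℝ) * ((T z : ℤ) : ℝ) = 3 * (z : ℝ) + 1 := by exact_mod_cast h1
  have hz0 : z ≠ 0 := by intro h; rw [h] at hodd; simp at hodd
  have hzr : 0 < |(z : ℝ)| := abs_pos.2 (by exact_mod_cast hz0)
  have h3 : 3 * |(z : ℝ)| - 1 ≤ 2 * M := by
    have h4 : 3 * |(z : ℝ)| - 1 ≤ |3 * (z : ℝ) + 1| := by
      have := abs_sub_abs_le_abs_sub (3 * (z : ℝ)) (-1)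
      rw [abs_mul, abs_neg, abs_one, sub_neg_eq_add] at this
      norm_num at this
      linarith
    rw [← h2, abs_mul] at h4
    norm_num at h4
    linarith
  have h5 : |(z : ℝ)| ≤ 2 * M / 3 * (1 + τ) := by
    have h6 : 1 ≤ 2 * M * τ := by
      rw [div_le_iff₀ (by positivity)] at hM
      linarith
    nlinarith
  have h7 : Real.log |(z : ℝ)| ≤ Real.log (2 * M / 3 * (1 + τ)) := Real.log_le_log hzr h5
  rw [Real.log_mul (by positivity) (by positivity), Real.log_div (by positivity) (by norm_num),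
    Real.log_mul (by norm_num) hM0.ne'] at h7
  have h8 : Real.log (1 + τ) ≤ τ := by
    have := Real.log_le_sub_one_of_pos (show 0 < 1 + τ by positivity)
    linarith
  linarith

theorem even_lower {z : ℤ} {N : ℝ} (hN0 : 0 < N) (heven : z % 2 = 0)
    (hz : N ≤ |((T z : ℤ) : ℝ)|) : Real.log N + Real.log 2 ≤ Real.log |(z : ℝ)| := by
  have h1 := T_even heven
  have h2 : (2 : ℝ) * ((T z : ℤ) : ℝ) = (z : ℝ) := by exact_mod_cast h1
  rw [← h2, abs_mul]
  norm_num
  have h3 : Real.log (2 * N) ≤ Real.log (2 * |((T z : ℤ) : ℝ)|) :=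
    Real.log_le_log (by positivity) (by linarith)
  rw [Real.log_mul (by norm_num) hN0.ne'] at h3
  linarith

/-- **Coding.** A finite set closed under `T` inside a window `[N, B N]` has few elements. -/
theorem window_card {B τ : ℝ} (hB : 3 ≤ B) (hτ : 0 < τ) {N : ℝ} (hN : 1 ≤ N) {k : ℕ}
    (hk : 2 * (B * N) < 2 ^ k) (hkN : (k : ℝ) / (2 * N) ≤ τ) (hNτ : 1 / (2 * N) ≤ τ)
    {Z : Finset ℤ} (hcl : ∀ x ∈ Z, ∀ j, T^[j] x ∈ Z)
    (hZ : ∀ x ∈ Z, N ≤ |(x : ℝ)| ∧ |(x : ℝ)| ≤ B * N) (K : ℕ)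
    (hK : ∀ m, (V (Real.log B - Real.log 3) τ k m).card ≤ K) :
    Z.card ≤ (⌊Real.log B / τ⌋₊ + 1) * 2 ^ K := by
  classical
  have hN0 : 0 < N := by linarith
  have hB0 : 0 < B := by linarith
  have hBN : 0 < B * N := by positivity
  set δ : ℝ := Real.log B - Real.log 3 with hδ
  have hlogB : Real.log (B * N) = Real.log B + Real.log N := Real.log_mul hB0.ne' hN0.ne'
  -- the bucket of an element
  set b : ℤ → ℕ := fun x => ⌊(Real.log |(x : ℝ)| - Real.log N) / τ⌋₊ with hb
  have hlog : ∀ x ∈ Z, Real.log N ≤ Real.log |(x : ℝ)| ∧ Real.log |(x : ℝ)| ≤ Real.log B + Real.log N := by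
    intro x hx
    obtain ⟨h1, h2⟩ := hZ x hx
    refine ⟨Real.log_le_log hN0 h1, ?_⟩
    rw [← hlogB]
    exact Real.log_le_log (by linarith) h2
  have hb1 : ∀ x ∈ Z, (b x : ℝ) * τ ≤ Real.log |(x : ℝ)| - Real.log N ∧
      Real.log |(x : ℝ)| - Real.log N ≤ (b x : ℝ) * τ + τ := by
    intro x hx
    have h0 : 0 ≤ (Real.log |(x : ℝ)| - Real.log N) / τ := by
      apply div_nonneg _ hτ.le
      linarith [(hlog x hx).1]
    have h1 := Nat.floor_le h0
    have h2 := Nat.lt_floor_add_one ((Real.log |(x : ℝ)| - Real.log N) / τ)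
    rw [le_div_iff₀ hτ] at h1
    rw [div_lt_iff₀ hτ] at h2
    constructor
    · exact h1
    · have : (b x : ℝ) = (⌊(Real.log |(x : ℝ)| - Real.log N) / τ⌋₊ : ℝ) := rfl
      rw [this]
      linarith
  have hbR : ∀ x ∈ Z, b x ∈ range (⌊Real.log B / τ⌋₊ + 1) := by
    intro x hx
    rw [mem_range]
    apply Nat.lt_succ_of_le
    apply Nat.floor_le_floor
    apply div_le_div_of_nonneg_right _ hτ.le
    linarith [(hlog x hx).2]
  -- position of the iterates
  have hpos : ∀ x ∈ Z, ∀ i ≤ k, |Real.log |((T^[i] x : ℤ) : ℝ)| - Real.log |(x : ℝ)| + i * Real.log 2 -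
      od i x * Real.log 3| ≤ τ := by
    intro x hx i hi
    refine (log_iter hN (fun j => (hZ _ (hcl x hx j)).1) i).trans (le_trans ?_ hkN)
    rw [mul_one_div]
    apply div_le_div_of_nonneg_right _ (by positivity)
    exact_mod_cast (od_le i x).trans hi
  -- the key claim
  have key : ∀ x ∈ Z, ∀ y ∈ Z, b x = b y →
      (∀ i ∈ V δ τ k (b x), (T^[i] x) % 2 = 1 ↔ (T^[i] y) % 2 = 1) →
      ∀ i < k, (T^[i] x) % 2 = (T^[i] y) % 2 := by
    -- one-sided version
    have one : ∀ x ∈ Z, ∀ y ∈ Z, b x = b y →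
        ∀ i < k, (∀ j < i, (T^[j] x) % 2 = (T^[j] y) % 2) → (T^[i] x) % 2 = 1 → (T^[i] y) % 2 = 0 →
          i ∈ V δ τ k (b x) := by
      intro x hx y hy hbxy i hik hj hox hey
      rw [mem_V]
      refine ⟨hik, (od i x : ℤ), ?_⟩
      have hod := od_congr hj
      have h1 := hpos x hx i hik.le
      have h2 := hpos y hy i hik.le
      rw [← hod] at h2
      have h3 := hb1 x hx
      have h4 := hb1 y hy
      rw [← hbxy] at h4
      have hTx : |((T (T^[i] x) : ℤ) : ℝ)| ≤ B * N := by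
        have := (hZ _ (hcl x hx (i + 1))).2
        rwa [Function.iterate_succ_apply'] at this
      have hTy : N ≤ |((T (T^[i] y) : ℤ) : ℝ)| := by
        have := (hZ _ (hcl y hy (i + 1))).1
        rwa [Function.iterate_succ_apply'] at this
      have hMτ : 1 / (2 * (B * N)) ≤ τ := by
        refine le_trans (one_div_le_one_div_of_le (by positivity) ?_) hNτ
        nlinarith
      have h5 := odd_upper hτ hMτ hBN hox hTx
      have h6 := even_lower hN0 hey hTy
      rw [hlogB] at h5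
      rw [abs_le] at h1 h2 ⊢
      push_cast
      constructor
      · linarith [h1.1, h1.2, h2.1, h2.2, h3.1, h3.2, h4.1, h4.2]
      · linarith [h1.1, h1.2, h2.1, h2.2, h3.1, h3.2, h4.1, h4.2]
    intro x hx y hy hbxy hV i
    induction i using Nat.strong_induction_on with
    | _ i ih =>
      intro hik
      have hj : ∀ j < i, (T^[j] x) % 2 = (T^[j] y) % 2 := fun j hji => ih j hji (by omega)
      rcases par (T^[i] x) with h1 | h1 <;> rcases par (T^[i] y) with h2 | h2
      · rw [h1, h2]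
      · exfalso
        have := one y hy x hx hbxy.symm i hik (fun j hji => (hj j hji).symm) h2 h1
        rw [← hbxy] at this
        have := (hV i this).2 h2
        omega
      · exfalso
        have := one x hx y hy hbxy i hik hj h1 h2
        have := (hV i this).1 h1
        omega
      · rw [h1, h2]
  -- injectivity of the code
  set code : ℤ → (Σ _ : ℕ, Finset ℕ) := fun x => ⟨b x, (V δ τ k (b x)).filter fun i => (T^[i] x) % 2 = 1⟩
    with hcode
  have hinj : Set.InjOn code Z := by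
    intro x hx y hy hxy
    rw [hcode] at hxy
    simp only [Sigma.mk.injEq] at hxy
    obtain ⟨hbxy, hf⟩ := hxy
    have hf := eq_of_heq hf
    have hpar := key x hx y hy hbxy (by
      intro i hi
      have h1 : i ∈ ((V δ τ k (b x)).filter fun i => (T^[i] x) % 2 = 1) ↔
          i ∈ ((V δ τ k (b y)).filter fun i => (T^[i] y) % 2 = 1) := by rw [hf]
      rw [mem_filter, mem_filter, ← hbxy] at h1
      tauto)
    have hdvd := same_par k x y hpar
    have habs : |x - y| < 2 ^ k := by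
      have h1 := (hZ x hx).2
      have h2 := (hZ y hy).2
      have h3 : |((x - y : ℤ) : ℝ)| < 2 ^ k := by
        push_cast
        refine lt_of_le_of_lt (abs_sub _ _) ?_
        linarith
      exact_mod_cast h3
    have := Int.eq_zero_of_abs_lt_dvd hdvd habs
    omega
  have hmem : ∀ x ∈ Z, code x ∈ (range (⌊Real.log B / τ⌋₊ + 1)).sigma fun m => (V δ τ k m).powerset := by
    intro x hx
    rw [mem_sigma]
    exact ⟨hbR x hx, by rw [mem_powerset]; exact filter_subset _ _⟩
  have h1 := card_le_card_of_injOn code hmem hinj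
  refine h1.trans ?_
  rw [card_sigma]
  calc ∑ m ∈ range (⌊Real.log B / τ⌋₊ + 1), ((V δ τ k m).powerset).card
      ≤ ∑ m ∈ range (⌊Real.log B / τ⌋₊ + 1), 2 ^ K := by
        apply sum_le_sum
        intro m _
        rw [card_powerset]
        exact Nat.pow_le_pow_right (by norm_num) (hK m)
    _ = (⌊Real.log B / τ⌋₊ + 1) * 2 ^ K := by rw [sum_const, card_range, smul_eq_mul]

end Pool.Agent.H547R3
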