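import Mathlib
import Pool.Agent.H547R3.Osc2

set_option autoImplicit false

/-!
Only finitely many cycles of the 3x+1 map have oscillation below `3 ^ (15/14)`.
-/

namespace Pool.Agent.H547R3

open Finset Pool.Agent.H319R2 Filter

theorem window_bound {B : ℝ} (hB3 : 3 ≤ B) (hB : Real.log B - Real.log 3 < Real.log 3 / 14) :
    ∃ C γ N0 : ℝ, 0 < C ∧ 0 < γ ∧ γ < 1 / 14 ∧ 1 ≤ N0 ∧ ∀ N : ℝ, N0 ≤ N → ∀ Z : Finset ℤ,
      (∀ x ∈ Z, ∀ j, T^[j] x ∈ Z) → (∀ x ∈ Z, N ≤ |(x : ℝ)| ∧ |(x : ℝ)| ≤ B * N) →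
      (Z.card : ℝ) ≤ C * N ^ γ := by
  classical
  have hl2 : 0 < Real.log 2 := Real.log_pos (by norm_num)
  have hl3 : 0 < Real.log 3 := Real.log_pos (by norm_num)
  have hB0 : 0 < B := by linarith
  set δ : ℝ := Real.log B - Real.log 3 with hδ
  have hδ0 : 0 ≤ δ := by
    have := Real.log_le_log (by norm_num : (0 : ℝ) < 3) hB3
    rw [hδ]; linarith
  set κ : ℝ := 1 / 14 - δ / Real.log 3 with hκ
  have hκ0 : 0 < κ := by
    rw [hκ, sub_pos, div_lt_iff₀ hl3]; linarith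
  set τ : ℝ := κ * Real.log 3 / 16 with hτdef
  have hτ : 0 < τ := by positivity
  obtain ⟨q, h, hq, hQ, hcop, hα⟩ := exists_approx (12 / κ)
  have hqr : (0 : ℝ) < q := by exact_mod_cast hq
  set r : ℝ := (δ / 2 + 2 * τ) / Real.log 3 with hr
  have hr0 : 0 < r := by positivity
  have h2r : 2 * r = δ / Real.log 3 + κ / 4 := by
    rw [hr, hτdef]; field_simp; ring
  have h3q : 3 / (q : ℝ) ≤ κ / 4 := by
    rw [div_le_iff₀ hκ0] at hQ
    rw [div_le_iff₀ hqr]
    linarith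
  set γ : ℝ := 2 * r + 3 / q with hγ
  have hγ0 : 0 < γ := by positivity
  have hγ1 : γ < 1 / 14 := by
    rw [hγ, h2r]
    have : δ / Real.log 3 = 1 / 14 - κ := by rw [hκ]; ring
    linarith
  set c0 : ℝ := 2 * r * q + 3 with hc0
  have hc00 : 0 < c0 := by positivity
  -- the threshold
  have hlim : ∀ᶠ N : ℝ in atTop, Real.log (8 * B * N) / Real.log 2 ≤ 2 * N * τ ∧ 1 / (2 * N) ≤ τ ∧ 1 ≤ N := by
    have h1 : Tendsto (fun N : ℝ => Real.log (8 * B * N) / N) atTop (nhds 0) := by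
      have h2 : Tendsto (fun N : ℝ => Real.log (8 * B) / N + Real.log N / N) atTop (nhds (0 + 0)) := by
        apply Tendsto.add
        · exact Tendsto.div_atTop tendsto_const_nhds tendsto_id
        · have := Real.isLittleO_log_id_atTop.tendsto_div_nhds_zero
          exact this
      rw [add_zero] at h2
      refine h2.congr' ?_
      filter_upwards [eventually_gt_atTop 0] with N hN
      rw [Real.log_mul (x := 8 * B) (by positivity) hN.ne']
      ring
    have h3 : ∀ᶠ N : ℝ in atTop, Real.log (8 * B * N) / N < 2 * τ * Real.log 2 :=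
      h1.eventually (gt_mem_nhds (by positivity))
    filter_upwards [h3, eventually_ge_atTop (1 / (2 * τ)), eventually_ge_atTop 1] with N h4 h5 h6
    have hN0 : 0 < N := by linarith
    refine ⟨?_, ?_, h6⟩
    · rw [div_lt_iff₀ hN0] at h4
      rw [div_le_iff₀ hl2]
      linarith
    · rw [div_le_iff₀ (by positivity)] at h5 ⊢
      linarith
  obtain ⟨N0, hN0⟩ := eventually_atTop.1 hlim
  refine ⟨(⌊Real.log B / τ⌋₊ + 1) * (2 ^ c0 * (8 * B) ^ γ), γ, max N0 1, by positivity, hγ0, hγ1,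
    le_max_right _ _, ?_⟩
  intro N hN Z hcl hZ
  obtain ⟨hk1, hNτ, hN1⟩ := hN0 N ((le_max_left _ _).trans hN)
  have hNpos : 0 < N := by linarith
  -- choose k
  set m : ℕ := ⌊2 * (B * N)⌋₊ with hm
  set k : ℕ := Nat.log 2 m + 1 with hk
  have hBN : 1 ≤ 2 * (B * N) := by nlinarith
  have hm0 : m ≠ 0 := by
    have : 1 ≤ m := Nat.one_le_floor_iff _ |>.2 hBN
    omega
  have hkup : 2 * (B * N) < 2 ^ k := by
    have h1 := Nat.lt_pow_succ_log_self (b := 2) (by norm_num) m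
    have h2 : m + 1 ≤ 2 ^ k := h1
    have h3 : 2 * (B * N) < m + 1 := Nat.lt_floor_add_one _
    have h4 : ((m + 1 : ℕ) : ℝ) ≤ ((2 ^ k : ℕ) : ℝ) := by exact_mod_cast h2
    push_cast at h4
    linarith
  have hklow : (2 : ℝ) ^ k ≤ 8 * B * N := by
    have h1 := Nat.pow_log_le_self 2 hm0
    have h3 : (m : ℝ) ≤ 2 * (B * N) := Nat.floor_le (by positivity)
    have h4 : ((2 ^ Nat.log 2 m : ℕ) : ℝ) ≤ (m : ℝ) := by exact_mod_cast h1
    push_cast at h4
    rw [hk, pow_succ]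
    nlinarith
  have hkN : (k : ℝ) / (2 * N) ≤ τ := by
    have h1 : (k : ℝ) * Real.log 2 ≤ Real.log (8 * B * N) := by
      rw [← Real.log_pow]
      exact Real.log_le_log (by positivity) hklow
    have h2 : (k : ℝ) ≤ Real.log (8 * B * N) / Real.log 2 := by rwa [le_div_iff₀ hl2]
    rw [div_le_iff₀ (by positivity)]
    linarith
  set K : ℕ := ⌊(k : ℝ) * γ + c0⌋₊ with hK
  have hVK : ∀ m, (V δ τ k m).card ≤ K := by
    intro m
    have h1 := V_card hδ0 hτ hq hcop hα k m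
    rw [hK]
    apply Nat.le_floor
    refine h1.trans (le_of_eq ?_)
    rw [← hr, hγ, hc0]
    field_simp
  have hcard := window_card hB3 hτ hN1 hkup hkN hNτ hcl hZ K hVK
  have hcard' : (Z.card : ℝ) ≤ (⌊Real.log B / τ⌋₊ + 1) * 2 ^ K := by exact_mod_cast hcard
  refine hcard'.trans ?_
  rw [mul_assoc]
  apply mul_le_mul_of_nonneg_left _ (by positivity)
  have h1 : (2 : ℝ) ^ K ≤ 2 ^ ((k : ℝ) * γ + c0) := by
    rw [← Real.rpow_natCast]
    apply Real.rpow_le_rpow_of_exponent_le (by norm_num)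
    exact Nat.floor_le (by positivity)
  refine h1.trans ?_
  rw [Real.rpow_add (by norm_num), Real.rpow_mul (by norm_num), Real.rpow_natCast]
  have h2 : ((2 : ℝ) ^ k) ^ γ ≤ (8 * B) ^ γ * N ^ γ := by
    rw [← Real.mul_rpow (by positivity) hNpos.le]
    exact Real.rpow_le_rpow (by positivity) hklow hγ0.le
  calc ((2 : ℝ) ^ k) ^ γ * 2 ^ c0 ≤ ((8 * B) ^ γ * N ^ γ) * 2 ^ c0 :=
        mul_le_mul_of_nonneg_right h2 (by positivity)
    _ = 2 ^ c0 * (8 * B) ^ γ * N ^ γ := by ring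

/-- **Bounded oscillation.** -/
theorem osc_finite (B : ℝ) (hB : B < 3 ^ (15 / 14 : ℝ)) :
    {Z : Finset ℤ | IsCycle Z ∧ ∀ x ∈ Z, ∀ y ∈ Z, |(x : ℝ)| ≤ B * |(y : ℝ)|}.Finite := by
  classical
  have hl3 : 0 < Real.log 3 := Real.log_pos (by norm_num)
  set B' : ℝ := max B 3 with hB'
  have hB3 : 3 ≤ B' := le_max_right _ _
  have h315 : (3 : ℝ) < 3 ^ (15 / 14 : ℝ) := by
    conv_lhs => rw [← Real.rpow_one 3]
    exact Real.rpow_lt_rpow_of_exponent_lt (by norm_num) (by norm_num)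
  have hB'lt : B' < 3 ^ (15 / 14 : ℝ) := max_lt hB h315
  have hlogB' : Real.log B' - Real.log 3 < Real.log 3 / 14 := by
    have := Real.log_lt_log (by linarith) hB'lt
    rw [Real.log_rpow (by norm_num)] at this
    linarith
  obtain ⟨C, γ, N0, hC, hγ0, hγ1, hN01, hwin⟩ := window_bound hB3 hlogB'
  obtain ⟨D, hD1, hD⟩ := min_bound
  have h14 : 0 < 1 - 14 * γ := by linarith
  set A : ℝ := D * C ^ 14 with hA
  have hA0 : 0 < A := by positivity
  set N2 : ℝ := max N0 (A ^ (1 / (1 - 14 * γ))) with hN2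
  set L : ℤ := ⌈B' * N2⌉ with hL
  apply Set.Finite.subset (Finset.finite_toSet ((Finset.Icc (-L) L).powerset))
  rintro Z ⟨hZ, hosc⟩
  rw [mem_coe, mem_powerset]
  -- the least element
  obtain ⟨x1, hx1, -⟩ := hZ.normal
  obtain ⟨x0, hx0, hmin⟩ := exists_min_image Z (fun x => |x|) ⟨x1, hx1⟩
  have hx0r : ∀ x ∈ Z, |(x : ℝ)| ≤ B' * |(x0 : ℝ)| := by
    intro x hx
    refine (hosc x hx x0 hx0).trans (mul_le_mul_of_nonneg_right (le_max_left _ _) (abs_nonneg _))
  have hbound : |(x0 : ℝ)| ≤ N2 := by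
    by_cases h0 : x0 = 0
    · rw [h0]; simp
      exact (zero_le_one.trans hN01).trans (le_max_left _ _)
    by_cases hN : |(x0 : ℝ)| < N0
    · exact hN.le.trans (le_max_left _ _)
    push Not at hN
    have hx0pos : 0 < |(x0 : ℝ)| := by linarith
    have h1 := hwin |(x0 : ℝ)| hN Z (fun x hx j => hZ.closed hx j) (by
      intro x hx
      refine ⟨?_, hx0r x hx⟩
      have := hmin x hx
      exact_mod_cast this)
    -- the minimal period
    obtain ⟨p, hp⟩ : ∃ p, p = Z.card := ⟨_, rfl⟩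
    have hper : T^[Z.card] x0 = x0 := by
      obtain ⟨z, hz, hpos, hset, hcard, -, -⟩ := hZ.normal
      obtain ⟨j, hj⟩ := hZ.back hz hx0
      rw [hcard, ← hj, ← Function.iterate_add_apply, Nat.add_comm, Function.iterate_add_apply,
        Function.iterate_minimalPeriod]
    have h2 := hD x0 Z.card hZ.card_pos h0 hper (fun j => hmin _ (hZ.closed hx0 j))
    have h3 : |(x0 : ℝ)| ≤ A * |(x0 : ℝ)| ^ (14 * γ) := by
      refine h2.trans ?_
      have h4 : (Z.card : ℝ) ^ 14 ≤ (C * |(x0 : ℝ)| ^ γ) ^ 14 :=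
        pow_le_pow_left₀ (by positivity) h1 14
      calc D * (Z.card : ℝ) ^ 14 ≤ D * (C * |(x0 : ℝ)| ^ γ) ^ 14 :=
            mul_le_mul_of_nonneg_left h4 (by linarith)
        _ = A * |(x0 : ℝ)| ^ (14 * γ) := by
            rw [mul_pow, ← Real.rpow_natCast (|(x0 : ℝ)| ^ γ) 14, ← Real.rpow_mul hx0pos.le, hA]
            push_cast
            rw [mul_comm γ 14]
            ring
    have h5 : |(x0 : ℝ)| ^ (1 - 14 * γ) ≤ A := by
      rw [Real.rpow_sub hx0pos, Real.rpow_one, div_le_iff₀ (by positivity)]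
      exact h3
    have h6 : |(x0 : ℝ)| ≤ A ^ (1 / (1 - 14 * γ)) := by
      have h7 := Real.rpow_le_rpow (by positivity) h5 (show 0 ≤ 1 / (1 - 14 * γ) by positivity)
      rwa [← Real.rpow_mul hx0pos.le, mul_one_div_cancel h14.ne', Real.rpow_one] at h7
    exact h6.trans (le_max_right _ _)
  intro x hx
  rw [Finset.mem_Icc, ← abs_le]
  have h1 : |(x : ℝ)| ≤ L := by
    refine ((hx0r x hx).trans (mul_le_mul_of_nonneg_left hbound (by linarith))).trans ?_
    rw [hL]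
    exact Int.le_ceil _
  exact_mod_cast h1

end Pool.Agent.H547R3
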