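import Mathlib

set_option autoImplicit false

/-!
Sums of `e`-th powers have nontrivial `p`-adic zeros as soon as there are `e ^ 3` variables.
-/

namespace Pool.Agent.H547R3.Had

open Finset

/-- lifting a zero of `Y ^ e + c` -/
theorem lift_root {p : ℕ} [Fact p.Prime] (e : ℕ) (c a : ℤ_[p])
    (h : ‖a ^ e + c‖ < ‖(e : ℤ_[p]) * a ^ (e - 1)‖ ^ 2) : ∃ z : ℤ_[p], z ^ e + c = 0 := by
  have hF : ∀ x : ℤ_[p], (Polynomial.X ^ e + Polynomial.C c : Polynomial ℤ_[p]).aeval x = x ^ e + c := by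
    intro x; simp
  have hF' : ∀ x : ℤ_[p], (Polynomial.derivative (Polynomial.X ^ e + Polynomial.C c :
      Polynomial ℤ_[p])).aeval x = (e : ℤ_[p]) * x ^ (e - 1) := by
    intro x; simp [Polynomial.derivative_X_pow]
  obtain ⟨z, hz, -⟩ := hensels_lemma (p := p) (F := (Polynomial.X ^ e + Polynomial.C c : Polynomial ℤ_[p]))
    (a := a) (by rw [hF, hF']; exact h)
  exact ⟨z, by rw [← hF]; exact hz⟩

/-- the case `p ∤ e` -/
theorem zero_of_not_dvd {p : ℕ} [Fact p.Prime] {e n : ℕ} (he : 0 < e) (hpe : ¬ p ∣ e) (hn : e < n) :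
    ∃ y : Fin n → ℤ_[p], y ≠ 0 ∧ ∑ i, y i ^ e = 0 := by
  classical
  -- Chevalley-Warning
  set f : MvPolynomial (Fin n) (ZMod p) := ∑ i, MvPolynomial.X i ^ e with hf
  have hdeg : f.totalDegree < Fintype.card (Fin n) := by
    rw [Fintype.card_fin]
    refine lt_of_le_of_lt ?_ hn
    rw [hf]
    refine (MvPolynomial.totalDegree_finsetSum _ _).trans ?_
    apply Finset.sup_le
    intro i _
    rw [MvPolynomial.totalDegree_X_pow]
  have hcw := char_dvd_card_solutions p hdeg
  have hev : ∀ x : Fin n → ZMod p, MvPolynomial.eval x f = ∑ i, x i ^ e := by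
    intro x; rw [hf]; simp
  have h0 : MvPolynomial.eval (0 : Fin n → ZMod p) f = 0 := by
    rw [hev]; simp [he.ne']
  -- a second solution
  obtain ⟨x, hx0, hx⟩ : ∃ x : Fin n → ZMod p, x ≠ 0 ∧ ∑ i, x i ^ e = 0 := by
    by_contra hcon
    push Not at hcon
    have hsub : Fintype.card {x : Fin n → ZMod p // MvPolynomial.eval x f = 0} = 1 := by
      rw [Fintype.card_eq_one_iff]
      refine ⟨⟨0, h0⟩, fun y => ?_⟩
      apply Subtype.ext
      by_contra hy
      exact hcon y.1 hy (by rw [← hev]; exact y.2)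
    rw [hsub] at hcw
    exact (Fact.out : p.Prime).one_lt.ne' (Nat.dvd_one.1 hcw)
  obtain ⟨j, hj⟩ : ∃ j, x j ≠ 0 := by
    by_contra h
    push Not at h
    exact hx0 (funext h)
  -- lift the coordinates
  have hlift : ∀ t : ZMod p, ∃ w : ℤ_[p], PadicInt.toZMod w = t := by
    intro t
    refine ⟨((t.val : ℕ) : ℤ_[p]), ?_⟩
    rw [map_natCast]
    exact ZMod.natCast_zmod_val t
  choose w hw using hlift
  set Y : Fin n → ℤ_[p] := fun i => w (x i) with hY
  set c : ℤ_[p] := ∑ i ∈ univ.erase j, Y i ^ e with hc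
  have hsum : ∀ z : ℤ_[p], ∑ i, (Function.update Y j z i) ^ e = z ^ e + c := by
    intro z
    rw [← add_sum_erase _ _ (mem_univ j), Function.update_self, hc]
    congr 1
    apply sum_congr rfl
    intro i hi
    rw [Function.update_of_ne (ne_of_mem_erase hi)]
  have hmod : PadicInt.toZMod (Y j ^ e + c) = 0 := by
    have h1 := hsum (Y j)
    rw [Function.update_eq_self] at h1
    rw [← h1, map_sum, ← hx]
    apply sum_congr rfl
    intro i _
    rw [map_pow, hY, hw]
  have hnorm : ‖Y j ^ e + c‖ < 1 := by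
    rw [PadicInt.norm_lt_one_iff_dvd]
    have : Y j ^ e + c ∈ RingHom.ker (PadicInt.toZMod (p := p)) := hmod
    rw [PadicInt.ker_toZMod, PadicInt.maximalIdeal_eq_span_p, Ideal.mem_span_singleton] at this
    exact this
  have hYj : ‖Y j‖ = 1 := by
    by_contra h
    have h1 : ‖Y j‖ < 1 := lt_of_le_of_ne (PadicInt.norm_le_one _) h
    rw [PadicInt.norm_lt_one_iff_dvd] at h1
    have h2 : Y j ∈ RingHom.ker (PadicInt.toZMod (p := p)) := by
      rw [PadicInt.ker_toZMod, PadicInt.maximalIdeal_eq_span_p, Ideal.mem_span_singleton]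
      exact h1
    have h3 : PadicInt.toZMod (Y j) = 0 := h2
    rw [hY, hw] at h3
    exact hj h3
  have hen : ‖(e : ℤ_[p])‖ = 1 := by
    by_contra h
    have h1 : ‖(e : ℤ_[p])‖ < 1 := lt_of_le_of_ne (PadicInt.norm_le_one _) h
    have h2 : ‖((e : ℤ) : ℤ_[p])‖ < 1 := by exact_mod_cast h1
    rw [PadicInt.norm_int_lt_one_iff_dvd] at h2
    exact hpe (by exact_mod_cast h2)
  obtain ⟨z, hz⟩ := lift_root e c (Y j) (by
    rw [norm_mul, hen, norm_pow, hYj]
    simpa using hnorm)
  refine ⟨Function.update Y j z, ?_, by rw [hsum, hz]⟩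
  intro h0'
  have hz0 : z = 0 := by
    have := congrFun h0' j
    rwa [Function.update_self] at this
  -- then c = 0, so `Y j ^ e` would have norm < 1
  rw [hz0, zero_pow he.ne', zero_add] at hz
  rw [hz, add_zero, norm_pow, hYj, one_pow] at hnorm
  exact lt_irrefl _ hnorm

/-- the case `p ∣ e` -/
theorem zero_of_dvd {p : ℕ} [hp : Fact p.Prime] {e n : ℕ} (he : 0 < e) (hpe : p ∣ e) (hn : e ^ 3 ≤ n) :
    ∃ y : Fin n → ℤ_[p], y ≠ 0 ∧ ∑ i, y i ^ e = 0 := by
  classical
  set v := padicValNat p e with hv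
  have hpv : p ^ v ∣ e := pow_padicValNat_dvd
  have hpv' : p ^ v ≤ e := Nat.le_of_dvd he hpv
  have hple : p ≤ e := Nat.le_of_dvd he hpe
  have hbig : p ^ (2 * v + 1) ≤ n := by
    refine le_trans ?_ hn
    calc p ^ (2 * v + 1) = p ^ v * p ^ v * p := by ring
      _ ≤ e * e * e := Nat.mul_le_mul (Nat.mul_le_mul hpv' hpv') hple
      _ = e ^ 3 := by ring
  have hpos : 0 < p ^ (2 * v + 1) := pow_pos hp.out.pos _
  have hn0 : 0 < n := by omega
  set g := p ^ (2 * v + 1) with hg
  set j : Fin n := ⟨0, hn0⟩ with hj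
  set Y : Fin n → ℤ_[p] := fun i => if i.val < g then 1 else 0 with hY
  set c : ℤ_[p] := ∑ i ∈ univ.erase j, Y i ^ e with hc
  have hsum : ∀ z : ℤ_[p], ∑ i, (Function.update Y j z i) ^ e = z ^ e + c := by
    intro z
    rw [← add_sum_erase _ _ (mem_univ j), Function.update_self, hc]
    congr 1
    apply sum_congr rfl
    intro i hi
    rw [Function.update_of_ne (ne_of_mem_erase hi)]
  have hYj : Y j = 1 := by rw [hY]; simp [hj, hpos]
  have htot : (1 : ℤ_[p]) ^ e + c = (p : ℤ_[p]) ^ (2 * v + 1) := by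
    have h1 := hsum (Y j)
    rw [Function.update_eq_self, hYj] at h1
    rw [← h1]
    have h2 : ∀ i : Fin n, Y i ^ e = if i.val < g then 1 else 0 := by
      intro i
      rw [hY]
      simp only
      split_ifs with h
      · rw [one_pow]
      · rw [zero_pow he.ne']
    rw [sum_congr rfl (fun i _ => h2 i), sum_boole]
    have h3 : (univ.filter fun i : Fin n => i.val < g).card = g := by
      have h4 : (univ.filter fun i : Fin n => i.val < g).image (fun i => i.val) = range g := by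
        ext m
        simp only [mem_image, mem_filter, mem_univ, true_and, mem_range]
        constructor
        · rintro ⟨i, hi, rfl⟩; exact hi
        · intro hm; exact ⟨⟨m, by omega⟩, hm, rfl⟩
      rw [← card_image_of_injective (univ.filter fun i : Fin n => i.val < g) Fin.val_injective, h4,
        card_range]
    rw [h3, hg]
    push_cast
    rfl
  have hnorme : ‖(e : ℤ_[p])‖ = (p : ℝ) ^ (-(v : ℤ)) := by
    have h1 : ‖(e : ℤ_[p])‖ = ‖((e : ℕ) : ℚ_[p])‖ := by
      rw [PadicInt.norm_def]; norm_cast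
    rw [h1, Padic.norm_eq_zpow_neg_valuation (by exact_mod_cast he.ne'), Padic.valuation_natCast]
  have hp1 : (1 : ℝ) < p := by exact_mod_cast hp.out.one_lt
  have hp0 : (0 : ℝ) < p := by linarith
  obtain ⟨z, hz⟩ := lift_root e c 1 (by
    rw [htot, one_pow, mul_one, hnorme, PadicInt.norm_p_pow, ← zpow_natCast ((p : ℝ) ^ (-(v : ℤ))) 2,
      ← zpow_mul]
    apply zpow_lt_zpow_right₀ hp1
    push_cast
    omega)
  refine ⟨Function.update Y j z, ?_, by rw [hsum, hz]⟩
  intro h0'
  have hz0 : z = 0 := by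
    have := congrFun h0' j
    rwa [Function.update_self] at this
  rw [hz0, zero_pow he.ne', zero_add] at hz
  rw [hz, one_pow, add_zero] at htot
  have h1 : ‖(1 : ℤ_[p])‖ = ‖(p : ℤ_[p]) ^ (2 * v + 1)‖ := by rw [htot]
  rw [norm_one, PadicInt.norm_p_pow] at h1
  have h2 : (p : ℝ) ^ (-((2 * v + 1 : ℕ) : ℤ)) < 1 := by
    rw [zpow_neg, zpow_natCast]
    exact inv_lt_one_of_one_lt₀ (one_lt_pow₀ hp1 (by omega))
  linarith

/-- **`p`-adic zeros of sums of powers.** -/
theorem padic_zero (p : ℕ) [hp : Fact p.Prime] {e n : ℕ} (he : 2 ≤ e) (hn : e ^ 3 ≤ n) :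
    ∃ y : Fin n → ℚ_[p], y ≠ 0 ∧ ∑ i, y i ^ e = 0 := by
  obtain ⟨y, hy0, hy⟩ : ∃ y : Fin n → ℤ_[p], y ≠ 0 ∧ ∑ i, y i ^ e = 0 := by
    by_cases h : p ∣ e
    · exact zero_of_dvd (by omega) h hn
    · apply zero_of_not_dvd (by omega) h
      refine lt_of_lt_of_le ?_ hn
      calc e = e ^ 1 := (pow_one e).symm
        _ < e ^ 3 := Nat.pow_lt_pow_right (by omega) (by norm_num)
  refine ⟨fun i => (y i : ℚ_[p]), ?_, ?_⟩
  · intro h
    apply hy0
    funext i
    have := congrFun h i
    simp only [Pi.zero_apply] at this ⊢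
    exact Subtype.ext this
  · have h := congrArg (PadicInt.Coe.ringHom (p := p)) hy
    rw [map_sum, map_zero] at h
    rw [← h]
    apply sum_congr rfl
    intro i _
    rw [map_pow]
    rfl

end Pool.Agent.H547R3.Had
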