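import Mathlib
import Pool.Agent.H547R3.Sub.Merge
import Pool.Agent.H547R3.Sub.GCyc

set_option autoImplicit false

namespace Pool.Agent.H547R3.SepC

/-- The map `T_{a,b}` on the integers. -/
def T (a b x : ℤ) : ℤ := if x % 2 = 0 then x / 2 else (a * x + b) / 2

/-- The number of odd terms among `x, T x, ..., T^(n-1) x`. -/
def odds (a b x : ℤ) (n : ℕ) : ℕ := ((Finset.range n).filter fun j => (T a b)^[j] x % 2 = 1).card

/-- parity as a natural number -/
def par (a b x : ℤ) (j : ℕ) : ℕ := ((T a b)^[j] x % 2).toNat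

/-- the additive part of the affine map of a word -/
def Sw (q : ℤ) (w : ℕ → ℕ) (a : ℕ) : ℕ → ℤ
  | 0 => 0
  | n + 1 => q ^ (w (a + n)) * Sw q w a n + 2 ^ n * (w (a + n) : ℤ)

lemma Sw_bound {q : ℤ} (hq : 3 ≤ q) {w : ℕ → ℕ} (hw : ∀ j, w j ≤ 1) (a n : ℕ) :
    0 ≤ Sw q w a n ∧ Sw q w a n ≤ q ^ n - 2 ^ n := by
  induction n with
  | zero => simp [Sw]
  | succ n ih =>
    have h2 : (0 : ℤ) < 2 ^ n := by positivity
    have h3 : (2 : ℤ) ^ n ≤ q ^ n := pow_le_pow_left₀ (by norm_num) (by linarith) n
    simp only [Sw]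
    rw [pow_succ, pow_succ]
    rcases Nat.le_one_iff_eq_zero_or_eq_one.1 (hw (a + n)) with h | h
    · rw [h]
      constructor
      · simpa using ih.1
      · simp only [pow_zero, one_mul, Nat.cast_zero, mul_zero, add_zero]
        nlinarith [ih.2]
    · rw [h]
      constructor
      · have := ih.1
        have : 0 ≤ q := by linarith
        positivity
      · simp only [pow_one, Nat.cast_one, mul_one]
        nlinarith [ih.2]

lemma Sw_congr {q : ℤ} {w w' : ℕ → ℕ} (a n : ℕ) (h : ∀ i < n, w (a + i) = w' (a + i)) :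
    Sw q w a n = Sw q w' a n := by
  induction n with
  | zero => rfl
  | succ n ih =>
    simp only [Sw]
    rw [ih (fun i hi => h i (by omega)), h n (by omega)]

lemma par_le (a b x : ℤ) (j : ℕ) : par a b x j ≤ 1 := by
  unfold par
  omega

lemma step {a b : ℤ} (ha : a % 2 = 1) (hb : b % 2 = 1) (x : ℤ) (j : ℕ) :
    2 * (T a b)^[j + 1] x = a ^ par a b x j * (T a b)^[j] x + b * par a b x j := by
  rw [Function.iterate_succ_apply']
  unfold par
  generalize (T a b)^[j] x = z
  unfold T
  rcases Int.emod_two_eq_zero_or_one z with h | h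
  · rw [if_pos h, h]
    simp
    omega
  · have h1 : (a * z + b) % 2 = 0 := by
      rw [Int.add_emod, Int.mul_emod, ha, h, hb]; norm_num
    rw [if_neg (by omega), h]
    simp
    omega

lemma odds_succ (a b x : ℤ) (n : ℕ) : odds a b x (n + 1) = odds a b x n + par a b x n := by
  unfold odds par
  rw [Finset.range_add_one, Finset.filter_insert]
  rcases Int.emod_two_eq_zero_or_one ((T a b)^[n] x) with h | h
  · rw [if_neg (by omega), h]; simp
  · rw [if_pos h, h, Finset.card_insert_of_notMem (by simp)]; simp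

lemma odds_le (a b x : ℤ) (n : ℕ) : odds a b x n ≤ n := by
  unfold odds
  refine (Finset.card_filter_le _ _).trans ?_
  rw [Finset.card_range]

lemma odds_mono (a b x : ℤ) {i j : ℕ} (h : i ≤ j) : odds a b x i ≤ odds a b x j := by
  unfold odds
  exact Finset.card_le_card (Finset.filter_subset_filter _ (Finset.range_mono h))

lemma formula {a b : ℤ} (ha : a % 2 = 1) (hb : b % 2 = 1) (x : ℤ) (i n : ℕ) :
    2 ^ n * (T a b)^[i + n] x = a ^ (odds a b x (i + n) - odds a b x i) * (T a b)^[i] x +
      b * Sw a (par a b x) i n := by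
  induction n with
  | zero => simp [Sw]
  | succ n ih =>
    have h1 := step ha hb x (i + n)
    have h2 := odds_succ a b x (i + n)
    have h3 := odds_mono a b x (show i ≤ i + n by omega)
    have h4 : odds a b x (i + (n + 1)) - odds a b x i =
        (odds a b x (i + n) - odds a b x i) + par a b x (i + n) := by
      rw [← add_assoc, h2]; omega
    rw [h4, pow_add a, ← add_assoc]
    simp only [Sw]
    linear_combination (2 : ℤ) ^ n * h1 + a ^ par a b x (i + n) * ih

/-- telescoping -/
lemma telescope {a b : ℤ} (ha : a % 2 = 1) (hb : b % 2 = 1) (x y : ℤ) (s : ℕ) (t : ℕ → ℕ)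
    (h0 : t 0 = 0) (hmono : ∀ i < s, t i ≤ t (i + 1))
    (ho : ∀ i ≤ s, odds a b x (t i) = odds a b y (t i)) : ∀ i ≤ s,
    2 ^ t i * ((T a b)^[t i] x - (T a b)^[t i] y) = a ^ odds a b x (t i) * (x - y) +
      ∑ k ∈ Finset.range i, (b * (Sw a (par a b x) (t k) (t (k + 1) - t k) -
        Sw a (par a b y) (t k) (t (k + 1) - t k))) *
        (2 ^ t k * a ^ (odds a b x (t i) - odds a b x (t (k + 1)))) := by
  have htm : ∀ m, m ≤ s → ∀ k ≤ m, t k ≤ t m := by
    intro m
    induction m with
    | zero => intro _ k hk; rw [Nat.le_zero.1 hk]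
    | succ m ih =>
      intro hm k hk
      rcases Nat.lt_or_ge k (m + 1) with h | h
      · exact (ih (by omega) k (by omega)).trans (hmono m (by omega))
      · have : k = m + 1 := by omega
        rw [this]
  intro i
  induction i with
  | zero =>
    intro _
    rw [h0]
    simp [odds]
  | succ i ih =>
    intro hi
    have h1 := ih (by omega)
    have hm := hmono i (by omega)
    have hx := formula ha hb x (t i) (t (i + 1) - t i)
    have hy := formula ha hb y (t i) (t (i + 1) - t i)
    rw [Nat.add_sub_cancel' hm] at hx hy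
    rw [← ho i (by omega), ← ho (i + 1) hi] at hy
    have hp : (2 : ℤ) ^ t (i + 1) = 2 ^ t i * 2 ^ (t (i + 1) - t i) := by
      rw [← pow_add, Nat.add_sub_cancel' hm]
    have hom := odds_mono a b x hm
    rw [Finset.sum_range_succ, hp, Nat.sub_self, pow_zero, mul_one]
    have e1 : ∀ k ∈ Finset.range i, (b * (Sw a (par a b x) (t k) (t (k + 1) - t k) -
        Sw a (par a b y) (t k) (t (k + 1) - t k))) *
        (2 ^ t k * a ^ (odds a b x (t (i + 1)) - odds a b x (t (k + 1)))) =
        a ^ (odds a b x (t (i + 1)) - odds a b x (t i)) *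
        ((b * (Sw a (par a b x) (t k) (t (k + 1) - t k) -
        Sw a (par a b y) (t k) (t (k + 1) - t k))) *
        (2 ^ t k * a ^ (odds a b x (t i) - odds a b x (t (k + 1))))) := by
      intro k hk
      have hk' := Finset.mem_range.1 hk
      have h5 := odds_mono a b x (htm i (by omega) (k + 1) (by omega))
      have h6 : odds a b x (t (i + 1)) - odds a b x (t (k + 1)) =
          (odds a b x (t (i + 1)) - odds a b x (t i)) +
            (odds a b x (t i) - odds a b x (t (k + 1))) := by omega
      rw [h6, pow_add]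
      ring
    rw [Finset.sum_congr rfl e1, ← Finset.mul_sum]
    have e2 : a ^ odds a b x (t (i + 1)) = a ^ (odds a b x (t (i + 1)) - odds a b x (t i)) *
        a ^ odds a b x (t i) := by
      rw [← pow_add, Nat.sub_add_cancel hom]
    rw [e2]
    linear_combination a ^ (odds a b x (t (i + 1)) - odds a b x (t i)) * h1 + 2 ^ t i * hx -
      2 ^ t i * hy

/-- pigeonhole: a level `K - i m` with no `β k` just below it -/
lemma level (s K m : ℕ) (hm : (s + 1) * m ≤ K) (β : Fin s → ℕ) :
    ∃ i ≤ s, ∀ k, β k + m ≤ K - i * m ∨ K - i * m ≤ β k := by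
  by_contra hcon
  push Not at hcon
  have hne : Nonempty (Fin s) := by
    obtain ⟨k, _⟩ := hcon 0 (Nat.zero_le _)
    exact ⟨k⟩
  choose! f hf using hcon
  obtain ⟨a, b, hab, hfab⟩ := Fintype.exists_ne_map_eq_of_card_lt
    (fun i : Fin (s + 1) => f (i : ℕ)) (by simp)
  have main : ∀ a b : Fin (s + 1), (a : ℕ) < b → f (a : ℕ) = f (b : ℕ) → False := by
    intro a b hlt hfab
    have h1 := hf a (by omega)
    have h2 := hf b (by omega)
    rw [← hfab] at h2
    have h3 : ((a : ℕ) + 1) * m ≤ b * m := Nat.mul_le_mul_right _ hlt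
    have h4 : (b : ℕ) * m ≤ (s + 1) * m := Nat.mul_le_mul_right _ (by omega)
    rw [add_mul, one_mul] at h3
    omega
  rcases Nat.lt_or_ge (a : ℕ) b with h | h
  · exact main a b h hfab
  · exact main b a (lt_of_le_of_ne h (fun hh => hab (Fin.ext hh.symm))) hfab.symm

end Pool.Agent.H547R3.SepC
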