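import Mathlib
import Pool.Agent.H547R3.SepC
import Pool.Agent.H547R3.Dig.Merge

set_option autoImplicit false

namespace Pool.Agent.H547R3.SepC

lemma lamB {q : ℕ} (hq3 : 3 ≤ q) (b x y : ℤ) (s N : ℕ) (t : ℕ → ℕ) (ε2 ε : ℝ)
    (hε20 : 0 ≤ ε2) (hεL : ε * Real.log q ≤ ε2 / 2)
    (hbN : |(b : ℝ)| ≤ Real.exp (ε2 / 2 * N)) (hmono : ∀ i < s, t i ≤ t (i + 1))
    (hpc : ∀ i < s, (t (i + 1) : ℝ) - t i ≤ ε * N ∨
      ∀ j, t i ≤ j → j < t (i + 1) → (T q b)^[j] x % 2 = (T q b)^[j] y % 2) :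
    ∀ k < s, |((b * (Sw q (par q b x) (t k) (t (k + 1) - t k) -
        Sw q (par q b y) (t k) (t (k + 1) - t k)) : ℤ) : ℝ)| ≤ Real.exp (ε2 * N) := by
  have hq3' : (3 : ℤ) ≤ q := by exact_mod_cast hq3
  have hqR : (3 : ℝ) ≤ q := by exact_mod_cast hq3
  have hL0 : 0 < Real.log q := Real.log_pos (by linarith)
  intro k hk
  rcases hpc k hk with h | h
  · have hx := Sw_bound hq3' (par_le q b x) (t k) (t (k + 1) - t k)
    have hy := Sw_bound hq3' (par_le q b y) (t k) (t (k + 1) - t k)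
    have h1 : |Sw q (par q b x) (t k) (t (k + 1) - t k) -
        Sw q (par q b y) (t k) (t (k + 1) - t k)| ≤ (q : ℤ) ^ (t (k + 1) - t k) := by
      have h2 : (0 : ℤ) < 2 ^ (t (k + 1) - t k) := by positivity
      rw [abs_le]
      constructor <;> linarith [hx.1, hx.2, hy.1, hy.2]
    have h2 : |((Sw q (par q b x) (t k) (t (k + 1) - t k) -
        Sw q (par q b y) (t k) (t (k + 1) - t k) : ℤ) : ℝ)| ≤ (q : ℝ) ^ (t (k + 1) - t k) := by
      exact_mod_cast h1
    rw [Int.cast_mul, abs_mul]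
    have h3 : (q : ℝ) ^ (t (k + 1) - t k) =
        Real.exp (((t (k + 1) - t k : ℕ) : ℝ) * Real.log q) := by
      rw [Real.exp_nat_mul, Real.exp_log (by linarith)]
    have h4 : (q : ℝ) ^ (t (k + 1) - t k) ≤ Real.exp (ε2 / 2 * N) := by
      rw [h3]
      apply Real.exp_le_exp.2
      rw [Nat.cast_sub (hmono k hk)]
      have h5 : (0 : ℝ) ≤ N := Nat.cast_nonneg _
      calc ((t (k + 1) : ℝ) - t k) * Real.log q ≤ (ε * N) * Real.log q :=
            mul_le_mul_of_nonneg_right h hL0.le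
        _ = (ε * Real.log q) * N := by ring
        _ ≤ ε2 / 2 * N := mul_le_mul_of_nonneg_right hεL h5
    calc _ ≤ Real.exp (ε2 / 2 * N) * Real.exp (ε2 / 2 * N) :=
          mul_le_mul hbN (h2.trans h4) (abs_nonneg _) (Real.exp_pos _).le
      _ = Real.exp (ε2 * N) := by rw [← Real.exp_add]; congr 1; ring
  · have h1 : Sw q (par q b x) (t k) (t (k + 1) - t k) -
        Sw q (par q b y) (t k) (t (k + 1) - t k) = 0 := by
      rw [sub_eq_zero]
      apply Sw_congr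
      intro i hi
      unfold par
      rw [h (t k + i) (by omega) (by omega)]
    rw [h1, mul_zero, Int.cast_zero, abs_zero]
    exact (Real.exp_pos _).le

lemma sumB (q K s N : ℕ) (hq : 1 ≤ q) (t be : ℕ → ℕ) (lam : ℕ → ℤ) (η' ε2 : ℝ)
    (hlam : ∀ k < s, |(lam k : ℝ)| ≤ Real.exp (ε2 * N))
    (ht : ∀ k < s, (t k : ℝ) ≤ (1 - η') * N) (hbe : ∀ k, be k ≤ K) :
    |∑ k ∈ Finset.range s, (lam k : ℝ) * ((2 : ℝ) ^ t k * (q : ℝ) ^ be k)| ≤
      s * ((q : ℝ) ^ K * (Real.exp (ε2 * N) * (2 : ℝ) ^ ((1 - η') * N))) := by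
  have hqR : (1 : ℝ) ≤ q := by exact_mod_cast hq
  refine (Finset.abs_sum_le_sum_abs _ _).trans ?_
  refine (Finset.sum_le_card_nsmul _ _
    ((q : ℝ) ^ K * (Real.exp (ε2 * N) * (2 : ℝ) ^ ((1 - η') * N)))
    (fun k hk => ?_)).trans (le_of_eq ?_)
  · have hk' := Finset.mem_range.1 hk
    rw [abs_mul, abs_of_pos (by positivity : (0 : ℝ) < (2 : ℝ) ^ t k * (q : ℝ) ^ be k)]
    have h4 : (q : ℝ) ^ be k ≤ (q : ℝ) ^ K := pow_le_pow_right₀ hqR (hbe k)
    have h5 : (2 : ℝ) ^ t k ≤ (2 : ℝ) ^ ((1 - η') * N) := by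
      rw [← Real.rpow_natCast]
      exact Real.rpow_le_rpow_of_exponent_le (by norm_num) (ht k hk')
    calc |(lam k : ℝ)| * ((2 : ℝ) ^ t k * (q : ℝ) ^ be k) ≤
        Real.exp (ε2 * N) * ((2 : ℝ) ^ ((1 - η') * N) * (q : ℝ) ^ K) :=
          mul_le_mul (hlam k hk') (mul_le_mul h5 h4 (by positivity) (by positivity))
            (by positivity) (Real.exp_pos _).le
      _ = _ := by ring
  · rw [Finset.card_range, nsmul_eq_mul]

lemma gap {q : ℕ} [Fact q.Prime] (hq2 : q ≠ 2) (δ : ℝ) (hδ : 0 < δ) : ∃ N0 : ℕ, ∀ N : ℕ, N0 ≤ N →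
    ∀ K : ℕ, K ≤ N → (q : ℝ) ^ K ≤ 2 * Real.exp (δ * N) * |(2 : ℝ) ^ N - (q : ℝ) ^ K| := by
  have hqp : q.Prime := Fact.out
  have hq3 : 3 ≤ q := by
    have := hqp.two_le
    omega
  have hqR : (3 : ℝ) ≤ q := by exact_mod_cast hq3
  have hL1 : 1 ≤ Real.log q := by
    have h1 : Real.log 3 ≤ Real.log q := Real.log_le_log (by norm_num) hqR
    have h2 : (1 : ℝ) ≤ Real.log 3 := by
      rw [← Real.log_exp 1]
      apply Real.log_le_log (Real.exp_pos _)
      linarith [Real.exp_one_lt_d9]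
    linarith
  set δ' : ℝ := min δ (1 / (4 * Real.log q)) with hδ'
  have hδ'0 : 0 < δ' := lt_min hδ (by positivity)
  have hδ'δ : δ' ≤ δ := min_le_left _ _
  have hδ'L : δ' * Real.log q ≤ 1 / 4 := by
    have h1 : δ' ≤ 1 / (4 * Real.log q) := min_le_right _ _
    rw [le_div_iff₀ (by positivity)] at h1
    linarith
  have hδ'1 : δ' ≤ 1 / 4 := by nlinarith
  obtain ⟨ε1, hε1, N1, hA⟩ := Pool.Agent.H547R3.Dig.indep (p := 2) (q := q) hq2.symm 1 δ' hδ'0
  obtain ⟨ε3, hε3, N3, hB⟩ := Pool.Agent.H547R3.Dig.indep (p := q) (q := 2) hq2 1 δ' hδ'0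
  refine ⟨max (max N1 N3) 4, ?_⟩
  intro N hN K hK
  have hN1 : N1 ≤ N := ((le_max_left _ _).trans (le_max_left _ _)).trans hN
  have hN3 : N3 ≤ N := ((le_max_right _ _).trans (le_max_left _ _)).trans hN
  have hN4 : 4 ≤ N := (le_max_right _ _).trans hN
  have hN4R : (4 : ℝ) ≤ N := by exact_mod_cast hN4
  have hKR : (K : ℝ) ≤ N := by exact_mod_cast hK
  have hK0 : (0 : ℝ) ≤ K := Nat.cast_nonneg _
  have hexp : (1 : ℝ) ≤ Real.exp (δ * N) := Real.one_le_exp (by positivity)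
  have hexp' : Real.exp (δ' * N) ≤ Real.exp (δ * N) :=
    Real.exp_le_exp.2 (mul_le_mul_of_nonneg_right hδ'δ (by positivity))
  have hee : Real.exp (δ' * N) * Real.exp (-(δ' * N)) = 1 := by
    rw [← Real.exp_add, add_neg_cancel, Real.exp_zero]
  have hqK : (0 : ℝ) < (q : ℝ) ^ K := by positivity
  have h2N : (0 : ℝ) < (2 : ℝ) ^ N := by positivity
  have he0 := Real.exp_pos (δ' * N)
  rcases le_or_gt ((q : ℝ) ^ K) ((2 : ℝ) ^ N) with hle | hlt
  · rcases le_or_gt (δ' * N) (K : ℝ) with hKδ | hKδ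
    · -- main case A
      have h1 : ¬ |((-(2 ^ N - (q : ℤ) ^ K) : ℤ) : ℝ)| ≤ (q : ℝ) ^ K * Real.exp (-(δ' * N)) := by
        intro hcon
        have h2 := hA N hN1 N K (fun _ => 0) (by nlinarith) (by nlinarith)
          (by rw [Nat.cast_ofNat]; exact hle) (fun i => by rw [Nat.cast_zero, zero_add]; exact hKδ)
          (fun _ => 1) (fun j => by
            rw [Int.cast_one, abs_one]; exact Real.one_le_exp (by positivity))
          (-(2 ^ N - (q : ℤ) ^ K))
          (by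
            rw [Nat.cast_ofNat]
            simp)
          hcon
        simp at h2
      rw [not_le] at h1
      push_cast at h1
      rw [abs_neg] at h1
      have h3 : (q : ℝ) ^ K ≤ Real.exp (δ' * N) * |(2 : ℝ) ^ N - (q : ℝ) ^ K| := by
        calc (q : ℝ) ^ K = Real.exp (δ' * N) * ((q : ℝ) ^ K * Real.exp (-(δ' * N))) := by
              rw [mul_comm ((q : ℝ) ^ K), ← mul_assoc, hee, one_mul]
          _ ≤ _ := mul_le_mul_of_nonneg_left h1.le he0.le
      have h4 := abs_nonneg ((2 : ℝ) ^ N - (q : ℝ) ^ K)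
      nlinarith
    · -- K small
      have h1 : (q : ℝ) ^ K ≤ (2 : ℝ) ^ N / 2 := by
        have e1 : (q : ℝ) ^ K = Real.exp (K * Real.log q) := by
          rw [Real.exp_nat_mul, Real.exp_log (by linarith)]
        have e2 : (2 : ℝ) ^ N / 2 = Real.exp (N * Real.log 2 - Real.log 2) := by
          rw [Real.exp_sub, Real.exp_nat_mul, Real.exp_log (by norm_num)]
        rw [e1, e2]
        apply Real.exp_le_exp.2
        have h5 : (K : ℝ) * Real.log q ≤ N / 4 := by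
          calc (K : ℝ) * Real.log q ≤ (δ' * N) * Real.log q :=
                mul_le_mul_of_nonneg_right hKδ.le (by linarith)
            _ = (δ' * Real.log q) * N := by ring
            _ ≤ 1 / 4 * N := mul_le_mul_of_nonneg_right hδ'L (by linarith)
            _ = _ := by ring
        have h6 := Real.log_two_gt_d9
        have h7 := Real.log_two_lt_d9
        nlinarith
      have h2 : (q : ℝ) ^ K ≤ |(2 : ℝ) ^ N - (q : ℝ) ^ K| := by
        rw [abs_of_nonneg (by linarith)]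
        linarith
      nlinarith
  · rcases le_or_gt ((q : ℝ) ^ K) (2 * (2 : ℝ) ^ N) with hle2 | hgt2
    · have h1 : ¬ |((2 ^ N - (q : ℤ) ^ K : ℤ) : ℝ)| ≤ ((2 : ℕ) : ℝ) ^ N * Real.exp (-(δ' * N)) := by
        intro hcon
        have h2 := hB N hN3 K N (fun _ => 0) (by nlinarith) (by nlinarith)
          (by rw [Nat.cast_ofNat]; exact hlt.le) (fun i => by
            rw [Nat.cast_zero, zero_add]; nlinarith)
          (fun _ => 1) (fun j => by
            rw [Int.cast_one, abs_one]; exact Real.one_le_exp (by positivity))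
          (2 ^ N - (q : ℤ) ^ K)
          (by
            rw [Nat.cast_ofNat]
            simp)
          hcon
        simp at h2
      rw [not_le] at h1
      push_cast at h1
      have h3 : (2 : ℝ) ^ N ≤ Real.exp (δ' * N) * |(2 : ℝ) ^ N - (q : ℝ) ^ K| := by
        calc (2 : ℝ) ^ N = Real.exp (δ' * N) * ((2 : ℝ) ^ N * Real.exp (-(δ' * N))) := by
              rw [mul_comm ((2 : ℝ) ^ N), ← mul_assoc, hee, one_mul]
          _ ≤ _ := mul_le_mul_of_nonneg_left h1.le he0.le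
      have h4 := abs_nonneg ((2 : ℝ) ^ N - (q : ℝ) ^ K)
      nlinarith
    · have h2 : (q : ℝ) ^ K ≤ 2 * |(2 : ℝ) ^ N - (q : ℝ) ^ K| := by
        rw [abs_of_neg (by linarith)]
        linarith
      have h4 := abs_nonneg ((2 : ℝ) ^ N - (q : ℝ) ^ K)
      nlinarith

end Pool.Agent.H547R3.SepC
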