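import Mathlib
import Pool.Agent.H547R3.SepD

set_option autoImplicit false

namespace Pool.Agent.H547R3.SepC

open Pool.Agent.H547R3.Sub in
/-- coalescence for `T_{q,b}` -/
theorem coal {q : ℕ} [Fact q.Prime] (hq2 : q ≠ 2) (b : ℤ) (hb : b % 2 = 1)
    (s : ℕ) (η : ℝ) (hη : 0 < η) : ∃ ε : ℝ, 0 < ε ∧ ∃ N0 : ℕ, ∀ N : ℕ, N0 ≤ N →
    ∀ (x y : ℤ) (t : ℕ → ℕ), |(x : ℝ) - y| ≤ (2 : ℝ) ^ ((1 - η) * N) →
    t 0 = 0 → t s = N → (∀ i < s, t i ≤ t (i + 1)) →
    (∀ i ≤ s, odds q b x (t i) = odds q b y (t i)) →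
    (∀ i < s, (t (i + 1) : ℝ) - t i ≤ ε * N ∨
      ∀ j, t i ≤ j → j < t (i + 1) → (T q b)^[j] x % 2 = (T q b)^[j] y % 2) →
    η * N ≤ (N : ℝ) - t (s - 1) → (T q b)^[N] x = (T q b)^[N] y := by
  -- constants
  have hqp : q.Prime := Fact.out
  have hq3 : 3 ≤ q := by
    have := hqp.two_le
    omega
  have hqodd : ((q : ℕ) : ℤ) % 2 = 1 := by
    rcases hqp.eq_two_or_odd with h | h
    · exact absurd h hq2
    · omega
  have hqR : (3 : ℝ) ≤ q := by exact_mod_cast hq3
  have hqR1 : (1 : ℝ) ≤ q := by linarith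
  have hqR0 : (0 : ℝ) < q := by linarith
  have hL1 : 1 ≤ Real.log q := by
    have h1 : Real.log 3 ≤ Real.log q := Real.log_le_log (by norm_num) hqR
    have h2 : (1 : ℝ) ≤ Real.log 3 := by
      rw [← Real.log_exp 1]
      apply Real.log_le_log (Real.exp_pos _)
      linarith [Real.exp_one_lt_d9]
    linarith
  have hlog2 : (0.69 : ℝ) ≤ Real.log 2 := by linarith [Real.log_two_gt_d9]
  set L : ℝ := Real.log q with hL
  set η' : ℝ := min η 1 with hη'
  have hη'0 : 0 < η' := lt_min hη one_pos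
  have hη'1 : η' ≤ 1 := min_le_right _ _
  have hη'η : η' ≤ η := min_le_left _ _
  have hsR : (0 : ℝ) ≤ s := Nat.cast_nonneg _
  set δ : ℝ := η' / (16 * (s + 2) * (L + 1)) with hδdef
  have hL10 : (0 : ℝ) < L + 1 := by linarith
  have hδ0 : 0 < δ := by positivity
  have hδs : δ * (16 * (s + 2) * (L + 1)) = η' := by rw [hδdef]; field_simp
  have hδs1 : (s + 2) * (δ * (L + 1)) = η' / 16 := by linarith
  have hδL1 : 0 < δ * (L + 1) := by positivity
  have hδη : δ ≤ η' / 32 := by nlinarith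
  have hδη2 : (s + 1) * (δ * L) ≤ η' / 16 := by nlinarith
  obtain ⟨ε1, hε1, N1, hmerge⟩ := merge (p := 2) (q := q) hq2.symm s δ hδ0
  set ε2 : ℝ := min ε1 (η' / 8) with hε2def
  have hε20 : 0 < ε2 := lt_min (by positivity) (by positivity)
  have hε2ε1 : ε2 ≤ ε1 := min_le_left _ _
  have hε2η : ε2 ≤ η' / 8 := min_le_right _ _
  set ε : ℝ := ε2 / (2 * L) with hεdef
  have hε0 : 0 < ε := by positivity
  have hεL : ε * Real.log q ≤ ε2 / 2 := by
    rw [← hL, hεdef]
    apply le_of_eq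
    field_simp
  refine ⟨ε, hε0, max N1 (⌈8 * ((s : ℝ) + 1) * (L + 1) / η'⌉₊ + ⌈2 * Real.log |(b : ℝ)| / ε2⌉₊ + 1), ?_⟩
  intro N hN x y t hxy h0 hs hmono ho hpc hlast
  have hN1 : N1 ≤ N := (le_max_left _ _).trans hN
  have hN2 : ⌈8 * ((s : ℝ) + 1) * (L + 1) / η'⌉₊ + ⌈2 * Real.log |(b : ℝ)| / ε2⌉₊ + 1 ≤ N :=
    (le_max_right _ _).trans hN
  have hNR : 8 * ((s : ℝ) + 1) * (L + 1) / η' ≤ N := by
    refine le_trans (Nat.le_ceil _) ?_
    have : ⌈8 * ((s : ℝ) + 1) * (L + 1) / η'⌉₊ ≤ N := by omega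
    exact_mod_cast this
  rw [div_le_iff₀ hη'0] at hNR
  have hNb : 2 * Real.log |(b : ℝ)| / ε2 ≤ N := by
    refine le_trans (Nat.le_ceil _) ?_
    have : ⌈2 * Real.log |(b : ℝ)| / ε2⌉₊ ≤ N := by omega
    exact_mod_cast this
  rw [div_le_iff₀ hε20] at hNb
  have hb0 : b ≠ 0 := by intro h; rw [h] at hb; norm_num at hb
  have hbR : 0 < |(b : ℝ)| := abs_pos.2 (by exact_mod_cast hb0)
  have hbN : |(b : ℝ)| ≤ Real.exp (ε2 / 2 * N) := by
    rw [← Real.log_le_iff_le_exp hbR]
    linarith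
  have hN0 : (0 : ℝ) ≤ N := Nat.cast_nonneg _
  have hNpos : (1 : ℝ) ≤ N := by
    have : 1 ≤ N := by omega
    exact_mod_cast this
  have hxy' : |(x : ℝ) - y| ≤ (2 : ℝ) ^ ((1 - η') * N) := by
    refine hxy.trans (Real.rpow_le_rpow_of_exponent_le (by norm_num) ?_)
    nlinarith
  have hlast' : (t (s - 1) : ℝ) ≤ (1 - η') * N := by nlinarith
  -- monotonicity
  have htm : ∀ m, m ≤ s → ∀ a ≤ m, t a ≤ t m := by
    intro m
    induction m with
    | zero => intro _ a ha; rw [Nat.le_zero.1 ha]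
    | succ m ih =>
      intro hm a ha
      rcases Nat.lt_or_ge a (m + 1) with h | h
      · exact (ih (by omega) a (by omega)).trans (hmono m (by omega))
      · have : a = m + 1 := by omega
        rw [this]
  set K : ℕ := odds q b x N with hK
  have hKN : K ≤ N := odds_le q b x N
  have hKNR : (K : ℝ) ≤ N := by exact_mod_cast hKN
  set lam : ℕ → ℤ := fun k => b * (Sw q (par q b x) (t k) (t (k + 1) - t k) -
    Sw q (par q b y) (t k) (t (k + 1) - t k)) with hlam
  set be : ℕ → ℕ := fun k => K - odds q b x (t (k + 1)) with hbe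
  have hmain := telescope hqodd hb x y s t h0 hmono ho s le_rfl
  rw [hs] at hmain
  have hlamle : ∀ k < s, |(lam k : ℝ)| ≤ Real.exp (ε2 * N) :=
    lamB hq3 b x y s N t ε2 ε hε20.le hεL hbN hmono hpc
  have htk : ∀ k < s, (t k : ℝ) ≤ (1 - η') * N := by
    intro k hk
    have h1 : t k ≤ t (s - 1) := htm (s - 1) (by omega) k (by omega)
    have h2 : (t k : ℝ) ≤ t (s - 1) := by exact_mod_cast h1
    linarith
  -- the size
  set U : ℝ := (2 : ℝ) ^ ((1 - η') * N) with hU
  have hU0 : 0 < U := by positivity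
  have hsize : |(2 : ℝ) ^ N * (((T q b)^[N] x : ℝ) - (T q b)^[N] y)| ≤
      (q : ℝ) ^ K * ((1 + s) * Real.exp (ε2 * N) * U) := by
    have h1 : (2 : ℝ) ^ N * (((T q b)^[N] x : ℝ) - (T q b)^[N] y) = (q : ℝ) ^ K * ((x : ℝ) - y) +
        ∑ k ∈ Finset.range s, (lam k : ℝ) * ((2 : ℝ) ^ t k * (q : ℝ) ^ be k) := by
      have := congrArg (fun z : ℤ => (z : ℝ)) hmain
      push_cast at this
      simp only [hlam, hbe]
      push_cast
      exact this
    rw [h1]
    refine (abs_add_le _ _).trans ?_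
    have h2 : |(q : ℝ) ^ K * ((x : ℝ) - y)| ≤ (q : ℝ) ^ K * (Real.exp (ε2 * N) * U) := by
      rw [abs_mul, abs_of_pos (by positivity : (0 : ℝ) < (q : ℝ) ^ K)]
      apply mul_le_mul_of_nonneg_left _ (by positivity)
      have h3 : (1 : ℝ) ≤ Real.exp (ε2 * N) := Real.one_le_exp (by positivity)
      nlinarith
    have h3 := sumB q K s N (by omega) t be lam η' ε2 hlamle htk (fun k => Nat.sub_le _ _)
    calc _ ≤ (q : ℝ) ^ K * (Real.exp (ε2 * N) * U) +
        s * ((q : ℝ) ^ K * (Real.exp (ε2 * N) * U)) := add_le_add h2 h3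
      _ = _ := by ring
  set m : ℕ := ⌈δ * N⌉₊ with hm
  have hmδ : δ * N ≤ m := Nat.le_ceil _
  have hm1 : (m : ℝ) ≤ δ * N + 1 := (Nat.ceil_lt_add_one (by positivity)).le
  have hstar : (q : ℝ) ^ ((s + 1) * m) * ((1 + s) * Real.exp (ε2 * N) * U) ≤
      (2 : ℝ) ^ N * Real.exp (-(δ * N)) := by
    have e1 : (q : ℝ) ^ ((s + 1) * m) = Real.exp ((((s + 1) * m : ℕ) : ℝ) * L) := by
      rw [hL, Real.exp_nat_mul, Real.exp_log (by linarith)]
    have e2 : (2 : ℝ) ^ N = Real.exp (N * Real.log 2) := by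
      rw [Real.exp_nat_mul, Real.exp_log (by norm_num)]
    have e3 : U = Real.exp ((1 - η') * N * Real.log 2) := by
      rw [hU, Real.rpow_def_of_pos (by norm_num), mul_comm]
    have e4 : (1 + s : ℝ) ≤ Real.exp s := by
      have := Real.add_one_le_exp (s : ℝ)
      linarith
    have e5 : (q : ℝ) ^ ((s + 1) * m) * ((1 + s) * Real.exp (ε2 * N) * U) ≤
        (q : ℝ) ^ ((s + 1) * m) * (Real.exp s * Real.exp (ε2 * N) * U) := by
      apply mul_le_mul_of_nonneg_left _ (by positivity)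
      apply mul_le_mul_of_nonneg_right _ hU0.le
      exact mul_le_mul_of_nonneg_right e4 (Real.exp_pos _).le
    refine e5.trans ?_
    rw [e1, e2, e3, ← Real.exp_add, ← Real.exp_add, ← Real.exp_add, ← Real.exp_add]
    apply Real.exp_le_exp.2
    push_cast
    have hL0 : 0 ≤ L := by linarith
    have g1 : ((s : ℝ) + 1) * m ≤ (s + 1) * (δ * N + 1) :=
      mul_le_mul_of_nonneg_left hm1 (by positivity)
    have g2 : ((s : ℝ) + 1) * m * L ≤ (s + 1) * (δ * N + 1) * L :=
      mul_le_mul_of_nonneg_right g1 hL0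
    have g3 : ((s : ℝ) + 1) * (δ * L) * N ≤ η' / 16 * N := mul_le_mul_of_nonneg_right hδη2 hN0
    have g4 : ε2 * N ≤ η' / 8 * N := mul_le_mul_of_nonneg_right hε2η hN0
    have g5 : δ * N ≤ η' / 32 * N := mul_le_mul_of_nonneg_right hδη hN0
    have g6 : (0.69 : ℝ) * (η' * N) ≤ Real.log 2 * (η' * N) :=
      mul_le_mul_of_nonneg_right hlog2 (by positivity)
    have g7 : 8 * (((s : ℝ) + 1) * L + s) ≤ η' * N := by nlinarith
    have g8 : (s + 1) * (δ * N + 1) * L = (s + 1) * (δ * L) * N + (s + 1) * L := by ring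
    have g9 : 0 ≤ η' * N := by positivity
    have g10 : (1 - η') * N * Real.log 2 = N * Real.log 2 - Real.log 2 * (η' * N) := by ring
    rw [g10]
    linarith
  have hfin : (T q b)^[N] x - (T q b)^[N] y = 0 → (T q b)^[N] x = (T q b)^[N] y :=
    fun h => by linarith
  apply hfin
  have h2N : (0 : ℝ) < (2 : ℝ) ^ N := by positivity
  have hexp1 : Real.exp (-(δ * N)) < 1 := by
    rw [Real.exp_lt_one_iff]
    have : 0 < δ * N := by positivity
    linarith
  rcases Nat.lt_or_ge K ((s + 1) * m) with hcase | hcase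
  · -- few odd terms
    have h1 : |(2 : ℝ) ^ N * (((T q b)^[N] x : ℝ) - (T q b)^[N] y)| < (2 : ℝ) ^ N := by
      refine lt_of_le_of_lt hsize ?_
      have h2 : (q : ℝ) ^ K ≤ (q : ℝ) ^ ((s + 1) * m) :=
        pow_le_pow_right₀ hqR1 hcase.le
      have h3 : (q : ℝ) ^ K * ((1 + s) * Real.exp (ε2 * N) * U) ≤
          (q : ℝ) ^ ((s + 1) * m) * ((1 + s) * Real.exp (ε2 * N) * U) :=
        mul_le_mul_of_nonneg_right h2 (by positivity)
      have h4 := h3.trans hstar
      nlinarith
    rw [abs_mul, abs_of_pos h2N] at h1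
    have h2 : |((T q b)^[N] x : ℝ) - (T q b)^[N] y| < 1 := by
      by_contra hcon
      rw [not_lt] at hcon
      nlinarith
    have h3 : |(T q b)^[N] x - (T q b)^[N] y| < 1 := by exact_mod_cast h2
    exact Int.abs_lt_one_iff.1 h3
  · obtain ⟨i, hi, hlev⟩ := level s K m hcase (fun k : Fin s => be k)
    set K' : ℕ := K - i * m with hK'
    have him : i * m ≤ s * m := Nat.mul_le_mul_right _ hi
    have hsm : (s + 1) * m = s * m + m := by ring
    have hKK' : K = K' + i * m := by omega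
    have hmK' : m ≤ K' := by omega
    set lam' : Fin s → ℤ := fun k => if K' ≤ be k then 0 else lam k with hlam'
    set be' : Fin s → ℕ := fun k => if K' ≤ be k then 0 else be k with hbe'
    have hδ1 : δ ≤ 1 := by linarith
    have hu := hmerge N hN1 N K' (fun k : Fin s => t k) be'
      (by nlinarith)
      (by
        have h1 : (K' : ℝ) ≤ K := by exact_mod_cast Nat.sub_le _ _
        have h2 : (0 : ℝ) ≤ K' := Nat.cast_nonneg _
        nlinarith)
      (by
        intro k
        have h1 := htk k k.2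
        have h3 := mul_le_mul_of_nonneg_right hδη hN0
        nlinarith)
      (by
        intro k
        simp only [hbe']
        have hmK'R : (m : ℝ) ≤ K' := by exact_mod_cast hmK'
        split_ifs with h
        · rw [Nat.cast_zero, zero_add]
          exact hmδ.trans hmK'R
        · have h1 := (hlev k).resolve_right h
          have h2 : (be k : ℝ) + m ≤ K' := by exact_mod_cast h1
          linarith)
      lam'
      (by
        intro k
        simp only [hlam']
        split_ifs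
        · rw [Int.cast_zero, abs_zero]; exact (Real.exp_pos _).le
        · refine (hlamle k k.2).trans (Real.exp_le_exp.2 ?_)
          exact mul_le_mul_of_nonneg_right hε2ε1 hN0)
      (-(2 ^ N * ((T q b)^[N] x - (T q b)^[N] y)))
      (by
        rw [Nat.cast_ofNat]
        exact (Dvd.intro _ rfl).neg_right)
      (by
        rw [Nat.cast_ofNat]
        have e1 : -(2 ^ N * ((T q b)^[N] x - (T q b)^[N] y)) +
            ∑ k : Fin s, lam' k * (2 ^ t k * (q : ℤ) ^ be' k) =
            -((q : ℤ) ^ K * (x - y)) - ∑ k : Fin s, (lam k * (2 ^ t k * (q : ℤ) ^ be k) -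
              lam' k * (2 ^ t k * (q : ℤ) ^ be' k)) := by
          rw [hmain, Finset.sum_sub_distrib, Finset.sum_range]
          ring
        rw [e1]
        apply dvd_sub
        · apply Dvd.dvd.neg_right
          exact (pow_dvd_pow _ (by omega)).mul_right _
        · apply Finset.dvd_sum
          intro k _
          simp only [hlam', hbe']
          split_ifs with h
          · rw [zero_mul, sub_zero]
            exact ((pow_dvd_pow _ h).mul_left _).mul_left _
          · rw [sub_self]; exact dvd_zero _)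
      (by
        push_cast
        rw [abs_neg]
        refine hsize.trans ?_
        have h1 : (q : ℝ) ^ K ≤ (q : ℝ) ^ K' * (q : ℝ) ^ ((s + 1) * m) := by
          rw [← pow_add]
          exact pow_le_pow_right₀ hqR1 (by omega)
        calc (q : ℝ) ^ K * ((1 + s) * Real.exp (ε2 * N) * U) ≤
            (q : ℝ) ^ K' * (q : ℝ) ^ ((s + 1) * m) * ((1 + s) * Real.exp (ε2 * N) * U) :=
              mul_le_mul_of_nonneg_right h1 (by positivity)
          _ = (q : ℝ) ^ K' * ((q : ℝ) ^ ((s + 1) * m) * ((1 + s) * Real.exp (ε2 * N) * U)) := by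
            ring
          _ ≤ (q : ℝ) ^ K' * ((2 : ℝ) ^ N * Real.exp (-(δ * N))) :=
              mul_le_mul_of_nonneg_left hstar (by positivity)
          _ = _ := by ring)
    have h1 : (2 : ℤ) ^ N * ((T q b)^[N] x - (T q b)^[N] y) = 0 := by linarith
    rcases mul_eq_zero.1 h1 with h2 | h2
    · exact absurd h2 (pow_ne_zero _ (by norm_num))
    · exact h2

end Pool.Agent.H547R3.SepC
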