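import Mathlib
import Pool.Agent.H547R3.SepE

set_option autoImplicit false

namespace Pool.Agent.H547R3.SepC

/-- separation of cycles, with a long last piece -/
theorem sep {q : ℕ} [Fact q.Prime] (hq2 : q ≠ 2) (b : ℤ) (hb : b % 2 = 1)
    (s : ℕ) (η : ℝ) (hη : 0 < η) : ∃ ε : ℝ, 0 < ε ∧ ∃ N0 : ℕ, ∀ N : ℕ, N0 ≤ N →
    ∀ (x y : ℤ) (t : ℕ → ℕ), (T q b)^[N] x = x → (T q b)^[N] y = y →
    t 0 = 0 → t s = N → (∀ i < s, t i ≤ t (i + 1)) →
    (∀ i ≤ s, odds q b x (t i) = odds q b y (t i)) →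
    (∀ i < s, (t (i + 1) : ℝ) - t i ≤ ε * N ∨
      ∀ j, t i ≤ j → j < t (i + 1) → (T q b)^[j] x % 2 = (T q b)^[j] y % 2) →
    η * N ≤ (N : ℝ) - t (s - 1) → x = y := by
  have hqp : q.Prime := Fact.out
  have hq3 : 3 ≤ q := by
    have := hqp.two_le
    omega
  have hqodd : ((q : ℕ) : ℤ) % 2 = 1 := by
    rcases hqp.eq_two_or_odd with h | h
    · exact absurd h hq2
    · omega
  have hqR : (3 : ℝ) ≤ q := by exact_mod_cast hq3
  have hL0 : 0 < Real.log q := Real.log_pos (by linarith)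
  have hlog2 : (0.69 : ℝ) ≤ Real.log 2 := by linarith [Real.log_two_gt_d9]
  set η' : ℝ := min η 1 with hη'
  have hη'0 : 0 < η' := lt_min hη one_pos
  have hη'1 : η' ≤ 1 := min_le_right _ _
  have hη'η : η' ≤ η := min_le_left _ _
  have hsR : (0 : ℝ) ≤ s := Nat.cast_nonneg _
  obtain ⟨ε1, hε1, N1, hcoal⟩ := coal hq2 b hb s (η' / 2) (by positivity)
  obtain ⟨N3, hgap⟩ := gap hq2 (η' / 16) (by positivity)
  set ε2 : ℝ := η' / 8 with hε2
  have hε20 : 0 < ε2 := by positivity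
  set ε : ℝ := min ε1 (ε2 / (2 * Real.log q)) with hεdef
  have hε0 : 0 < ε := lt_min hε1 (by positivity)
  have hεε1 : ε ≤ ε1 := min_le_left _ _
  have hεL : ε * Real.log q ≤ ε2 / 2 := by
    have h1 : ε ≤ ε2 / (2 * Real.log q) := min_le_right _ _
    rw [le_div_iff₀ (by positivity)] at h1
    linarith
  refine ⟨ε, hε0, max (max N1 N3) (⌈16 * (s : ℝ) / η'⌉₊ + ⌈2 * Real.log |(b : ℝ)| / ε2⌉₊ + 1), ?_⟩
  intro N hN x y t hx hy h0 hs hmono ho hpc hlast
  have hN1 : N1 ≤ N := ((le_max_left _ _).trans (le_max_left _ _)).trans hN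
  have hN3 : N3 ≤ N := ((le_max_right _ _).trans (le_max_left _ _)).trans hN
  have hN2 : ⌈16 * (s : ℝ) / η'⌉₊ + ⌈2 * Real.log |(b : ℝ)| / ε2⌉₊ + 1 ≤ N :=
    (le_max_right _ _).trans hN
  have hNR : 16 * (s : ℝ) / η' ≤ N := by
    refine le_trans (Nat.le_ceil _) ?_
    have : ⌈16 * (s : ℝ) / η'⌉₊ ≤ N := by omega
    exact_mod_cast this
  rw [div_le_iff₀ hη'0] at hNR
  have hNb : 2 * Real.log |(b : ℝ)| / ε2 ≤ N := by
    refine le_trans (Nat.le_ceil _) ?_
    have : ⌈2 * Real.log |(b : ℝ)| / ε2⌉₊ ≤ N := by omega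
    exact_mod_cast this
  rw [div_le_iff₀ hε20] at hNb
  have hb0 : b ≠ 0 := by intro h; rw [h] at hb; norm_num at hb
  have hbR : 0 < |(b : ℝ)| := abs_pos.2 (by exact_mod_cast hb0)
  have hbN : |(b : ℝ)| ≤ Real.exp (ε2 / 2 * N) := by
    rw [← Real.log_le_iff_le_exp hbR]
    linarith
  have hN0 : (0 : ℝ) ≤ N := Nat.cast_nonneg _
  have hlast' : (t (s - 1) : ℝ) ≤ (1 - η') * N := by nlinarith
  have htm : ∀ m, m ≤ s → ∀ a ≤ m, t a ≤ t m := by
    intro m
    induction m with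
    | zero => intro _ a ha; rw [Nat.le_zero.1 ha]
    | succ m ih =>
      intro hm a ha
      rcases Nat.lt_or_ge a (m + 1) with h | h
      · exact (ih (by omega) a (by omega)).trans (hmono m (by omega))
      · have : a = m + 1 := by omega
        rw [this]
  set K : ℕ := odds q b x N with hK
  have hKN : K ≤ N := odds_le q b x N
  set lam : ℕ → ℤ := fun k => b * (Sw q (par q b x) (t k) (t (k + 1) - t k) -
    Sw q (par q b y) (t k) (t (k + 1) - t k)) with hlam
  set be : ℕ → ℕ := fun k => K - odds q b x (t (k + 1)) with hbe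
  have hmain := telescope hqodd hb x y s t h0 hmono ho s le_rfl
  rw [hs, hx, hy] at hmain
  have hlamle : ∀ k < s, |(lam k : ℝ)| ≤ Real.exp (ε2 * N) :=
    lamB hq3 b x y s N t ε2 ε hε20.le hεL hbN hmono hpc
  have htk : ∀ k < s, (t k : ℝ) ≤ (1 - η') * N := by
    intro k hk
    have h1 : t k ≤ t (s - 1) := htm (s - 1) (by omega) k (by omega)
    have h2 : (t k : ℝ) ≤ t (s - 1) := by exact_mod_cast h1
    linarith
  have hsum := sumB q K s N (by omega) t be lam η' ε2 hlamle htk (fun k => Nat.sub_le _ _)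
  set U : ℝ := (2 : ℝ) ^ ((1 - η') * N) with hU
  have hU0 : 0 < U := by positivity
  have h1 : ((2 : ℝ) ^ N - (q : ℝ) ^ K) * ((x : ℝ) - y) =
      ∑ k ∈ Finset.range s, (lam k : ℝ) * ((2 : ℝ) ^ t k * (q : ℝ) ^ be k) := by
    have := congrArg (fun z : ℤ => (z : ℝ)) hmain
    push_cast at this
    simp only [hlam, hbe]
    push_cast
    linarith
  have hg := hgap N hN3 K hKN
  set D : ℝ := |(2 : ℝ) ^ N - (q : ℝ) ^ K| with hD
  have hqK : (0 : ℝ) < (q : ℝ) ^ K := by positivity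
  have hD0 : 0 < D := by
    rcases (abs_nonneg ((2 : ℝ) ^ N - (q : ℝ) ^ K)).eq_or_lt with h | h
    · rw [hD, ← h, mul_zero] at hg
      linarith
    · exact h
  have h2 : D * |(x : ℝ) - y| ≤ D * (s * (Real.exp (ε2 * N) * U) * (2 * Real.exp (η' / 16 * N))) := by
    rw [hD, ← abs_mul, h1, ← hD]
    refine hsum.trans ?_
    calc (s : ℝ) * ((q : ℝ) ^ K * (Real.exp (ε2 * N) * U)) =
        (s * (Real.exp (ε2 * N) * U)) * (q : ℝ) ^ K := by ring
      _ ≤ (s * (Real.exp (ε2 * N) * U)) * (2 * Real.exp (η' / 16 * N) * D) :=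
          mul_le_mul_of_nonneg_left hg (by positivity)
      _ = _ := by ring
  have h3 := le_of_mul_le_mul_left h2 hD0
  have hxy : |(x : ℝ) - y| ≤ (2 : ℝ) ^ ((1 - η' / 2) * N) := by
    refine h3.trans ?_
    have e3 : U = Real.exp ((1 - η') * N * Real.log 2) := by
      rw [hU, Real.rpow_def_of_pos (by norm_num), mul_comm]
    have e4 : (2 : ℝ) ^ ((1 - η' / 2) * N) = Real.exp ((1 - η' / 2) * N * Real.log 2) := by
      rw [Real.rpow_def_of_pos (by norm_num), mul_comm]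
    have e5 : (s : ℝ) * 2 ≤ Real.exp (2 * s) := by
      have := Real.add_one_le_exp (2 * (s : ℝ))
      linarith
    rw [e3, e4]
    calc (s : ℝ) * (Real.exp (ε2 * N) * Real.exp ((1 - η') * N * Real.log 2)) *
        (2 * Real.exp (η' / 16 * N)) = (s * 2) * (Real.exp (ε2 * N) *
          Real.exp ((1 - η') * N * Real.log 2) * Real.exp (η' / 16 * N)) := by ring
      _ ≤ Real.exp (2 * s) * (Real.exp (ε2 * N) *
          Real.exp ((1 - η') * N * Real.log 2) * Real.exp (η' / 16 * N)) :=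
          mul_le_mul_of_nonneg_right e5 (by positivity)
      _ = Real.exp (2 * s + (ε2 * N + (1 - η') * N * Real.log 2 + η' / 16 * N)) := by
          rw [← Real.exp_add, ← Real.exp_add, ← Real.exp_add]
      _ ≤ _ := by
          apply Real.exp_le_exp.2
          have g6 : (0.69 : ℝ) * (η' * N) ≤ Real.log 2 * (η' * N) :=
            mul_le_mul_of_nonneg_right hlog2 (by positivity)
          have g10 : (1 - η') * N * Real.log 2 = N * Real.log 2 - Real.log 2 * (η' * N) := by ring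
          have g11 : (1 - η' / 2) * N * Real.log 2 =
            N * Real.log 2 - Real.log 2 * (η' * N) / 2 := by ring
          rw [g10, g11, hε2]
          have g12 : 0 ≤ η' * N := by positivity
          linarith
  have hfin := hcoal N hN1 x y t hxy h0 hs hmono ho (fun i hi => (hpc i hi).imp_left (fun h =>
    h.trans (mul_le_mul_of_nonneg_right hεε1 hN0))) (by nlinarith)
  rwa [hx, hy] at hfin

end Pool.Agent.H547R3.SepC
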