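import Mathlib
import Pool.Agent.H547R3.SepF

set_option autoImplicit false

namespace Pool.Agent.H547R3.SepC

lemma odds_add (a b x : ℤ) (m n : ℕ) :
    odds a b x (m + n) = odds a b x m + odds a b ((T a b)^[m] x) n := by
  induction n with
  | zero => simp [odds]
  | succ n ih =>
    rw [← add_assoc, odds_succ, odds_succ, ih, add_assoc]
    congr 2
    unfold par
    rw [← Function.iterate_add_apply, add_comm n m]

lemma per_mul {f : ℤ → ℤ} {x : ℤ} {N : ℕ} (hx : f^[N] x = x) (a n : ℕ) :
    f^[N * a + n] x = f^[n] x := by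
  rw [add_comm, Function.iterate_add_apply, Function.iterate_mul, Function.iterate_fixed hx]

/-- **separation of cycles** -/
theorem sepRot {q : ℕ} [Fact q.Prime] (hq2 : q ≠ 2) (b : ℤ) (hb : b % 2 = 1)
    (s : ℕ) : ∃ ε : ℝ, 0 < ε ∧ ∃ N0 : ℕ, ∀ N : ℕ, N0 ≤ N →
    ∀ (x y : ℤ) (t : ℕ → ℕ), (T q b)^[N] x = x → (T q b)^[N] y = y →
    t 0 = 0 → t s = N → (∀ i < s, t i ≤ t (i + 1)) →
    (∀ i ≤ s, odds q b x (t i) = odds q b y (t i)) →
    (∀ i < s, (t (i + 1) : ℝ) - t i ≤ ε * N ∨
      ∀ j, t i ≤ j → j < t (i + 1) → (T q b)^[j] x % 2 = (T q b)^[j] y % 2) → x = y := by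
  rcases Nat.eq_zero_or_pos s with hs0 | hs0
  · refine ⟨1, one_pos, 1, ?_⟩
    intro N hN x y t _ _ h0 hs
    rw [hs0, h0] at hs
    omega
  have hsR : (0 : ℝ) < s := by exact_mod_cast hs0
  obtain ⟨ε, hε, N0, hsep⟩ := sep hq2 b hb s (1 / s) (by positivity)
  refine ⟨ε, hε, N0, ?_⟩
  intro N hN x y t hx hy h0 hs hmono ho hpc
  -- the longest piece
  obtain ⟨j, hj, hjlen⟩ : ∃ j ∈ Finset.range s, (N : ℝ) / s ≤ (t (j + 1) : ℝ) - t j := by
    apply Finset.exists_le_of_sum_le (Finset.nonempty_range_iff.2 hs0.ne')
    rw [Finset.sum_range_sub (fun i => (t i : ℝ)), Finset.sum_const, Finset.card_range, nsmul_eq_mul,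
      hs, h0, Nat.cast_zero, sub_zero, mul_div_cancel₀ _ hsR.ne']
  have hj' := Finset.mem_range.1 hj
  set τ : ℕ → ℕ := fun i => N * (i / s) + t (i % s) with hτ
  have hτstep : ∀ i, τ (i + 1) = N * (i / s) + t (i % s + 1) := by
    intro i
    have hr := Nat.mod_lt i hs0
    have hi := Nat.div_add_mod i s
    simp only [hτ]
    rcases Nat.lt_or_ge (i % s + 1) s with h | h
    · have h1 : i + 1 = s * (i / s) + (i % s + 1) := by omega
      rw [h1, Nat.mul_add_div hs0, Nat.mul_add_mod, Nat.div_eq_of_lt h, Nat.mod_eq_of_lt h,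
        add_zero]
    · have h2 : i % s + 1 = s := by omega
      have h1 : i + 1 = s * (i / s + 1) := by rw [mul_add, mul_one]; omega
      rw [h1, Nat.mul_div_cancel_left _ hs0, Nat.mul_mod_right, h0, h2, hs]
      ring
  have hτs : ∀ i, τ (s + i) = N + τ i := by
    intro i
    simp only [hτ]
    rw [Nat.add_div_left _ hs0, Nat.add_mod_left]
    ring
  have hτj : τ (j + 1) = t (j + 1) := by
    rw [hτstep, Nat.div_eq_of_lt hj', Nat.mod_eq_of_lt hj', mul_zero, zero_add]
  have hτmono : ∀ i, τ i ≤ τ (i + 1) := by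
    intro i
    rw [hτstep]
    simp only [hτ]
    exact Nat.add_le_add_left (hmono _ (Nat.mod_lt i hs0)) _
  have hτm : Monotone τ := monotone_nat_of_le_succ hτmono
  have hoN : ∀ a, odds q b x (N * a) = odds q b y (N * a) := by
    intro a
    induction a with
    | zero => rw [mul_zero]; simp [odds]
    | succ a ih =>
      have e1 : (T q b)^[N * a] x = x := by
        have := per_mul hx a 0
        rwa [add_zero] at this
      have e2 : (T q b)^[N * a] y = y := by
        have := per_mul hy a 0
        rwa [add_zero] at this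
      have e3 := ho s le_rfl
      rw [hs] at e3
      rw [mul_add, mul_one, odds_add, odds_add, e1, e2, ih, e3]
  have hoτ : ∀ i, odds q b x (τ i) = odds q b y (τ i) := by
    intro i
    have e1 : (T q b)^[N * (i / s)] x = x := by
      have := per_mul hx (i / s) 0
      rwa [add_zero] at this
    have e2 : (T q b)^[N * (i / s)] y = y := by
      have := per_mul hy (i / s) 0
      rwa [add_zero] at this
    simp only [hτ]
    rw [odds_add, odds_add, e1, e2, hoN, ho _ (Nat.mod_lt i hs0).le]
  set c : ℕ := t (j + 1) with hc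
  set t' : ℕ → ℕ := fun i => τ (i + (j + 1)) - c with ht'
  have hct : ∀ i, c + t' i = τ (i + (j + 1)) := by
    intro i
    have : τ (j + 1) ≤ τ (i + (j + 1)) := hτm (by omega)
    simp only [ht']
    omega
  have hcN : c ≤ N := by
    have h1 : τ (j + 1) ≤ τ s := hτm (by omega)
    have h2 := hτs 0
    rw [add_zero] at h2
    have h3 : τ 0 = 0 := by
      simp only [hτ]
      rw [Nat.zero_div, Nat.zero_mod, h0, mul_zero]
    omega
  have key : (T q b)^[c] x = (T q b)^[c] y := by
    apply hsep N hN ((T q b)^[c] x) ((T q b)^[c] y) t'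
    · rw [← Function.iterate_add_apply, add_comm, Function.iterate_add_apply, hx]
    · rw [← Function.iterate_add_apply, add_comm, Function.iterate_add_apply, hy]
    · simp only [ht']
      rw [zero_add, hτj]
      omega
    · simp only [ht']
      rw [hτs, hτj]
      omega
    · intro i _
      have h1 := hct i
      have h2 := hct (i + 1)
      have h3 : τ (i + (j + 1)) ≤ τ (i + 1 + (j + 1)) := hτm (by omega)
      omega
    · intro i _
      have h1 := odds_add q b x c (t' i)
      have h2 := odds_add q b y c (t' i)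
      rw [hct] at h1 h2
      have h3 := hoτ (i + (j + 1))
      have h4 := hoτ (j + 1)
      rw [hτj] at h4
      omega
    · intro i _
      have h1 := hct i
      have h2 := hct (i + 1)
      set n : ℕ := i + (j + 1) with hn
      have h3 : i + 1 + (j + 1) = n + 1 := by omega
      rw [h3, hτstep] at h2
      have h4 : τ n = N * (n / s) + t (n % s) := rfl
      rw [h4] at h1
      have hr := Nat.mod_lt n hs0
      have hm := hmono _ hr
      rcases hpc _ hr with h | h
      · left
        have e1 : (c : ℝ) + t' i = N * (n / s : ℕ) + t (n % s) := by exact_mod_cast h1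
        have e2 : (c : ℝ) + t' (i + 1) = N * (n / s : ℕ) + t (n % s + 1) := by exact_mod_cast h2
        linarith
      · right
        intro l hl1 hl2
        rw [← Function.iterate_add_apply, ← Function.iterate_add_apply]
        have e1 : l + c = N * (n / s) + (l + c - N * (n / s)) := by omega
        rw [e1, per_mul hx, per_mul hy]
        exact h _ (by omega) (by omega)
    · have h1 := hct (s - 1)
      have h2 : s - 1 + (j + 1) = s + j := by omega
      rw [h2, hτs] at h1
      have h3 : τ j = t j := by
        simp only [hτ]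
        rw [Nat.div_eq_of_lt hj', Nat.mod_eq_of_lt hj', mul_zero, zero_add]
      rw [h3] at h1
      have e1 : (c : ℝ) + t' (s - 1) = N + t j := by exact_mod_cast h1
      have e2 : (1 : ℝ) / s * N = N / s := by ring
      rw [e2]
      linarith
  have h1 : (T q b)^[N - c] ((T q b)^[c] x) = (T q b)^[N - c] ((T q b)^[c] y) := by rw [key]
  rwa [← Function.iterate_add_apply, ← Function.iterate_add_apply, Nat.sub_add_cancel hcN, hx, hy]
    at h1

end Pool.Agent.H547R3.SepC
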